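import Mathlib

/-!
Exponential sums over a finite field of characteristic two: the kernel `S` and the basic
identities used to show that the operators `K z` and `T` commute.
-/

open Finset

set_option linter.unusedSectionVars false

namespace Pool.Agent.Q280.JHK

variable {F : Type*} [Field F] [Fintype F] [DecidableEq F] [CharP F 2]
variable {R : Type*} [CommRing R]

/-- a nontrivial additive character of a finite field of characteristic two which is
invariant under squaring -/
structure IsChar (c : F → R) : Prop where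
  add : ∀ x y, c (x + y) = c x * c y
  zero : c 0 = 1
  sum : ∀ a, a ≠ 0 → ∑ y : F, c (a * y) = 0
  frob : ∀ x, c (x ^ 2) = c x

omit [DecidableEq F] in
theorem IsChar.sq {c : F → R} (hc : IsChar c) (x : F) : c x * c x = 1 := by
  rw [← hc.add, CharTwo.add_self_eq_zero, hc.zero]

theorem IsChar.sum_ite {c : F → R} (hc : IsChar c) (a : F) :
    ∑ y : F, c (a * y) = if a = 0 then (Fintype.card F : R) else 0 := by
  split_ifs with h
  · subst h
    simp [hc.zero]
  · exact hc.sum a h

/-- the kernel -/
def S (c : F → R) (x y z : F) : R :=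
  ∑ b : F, if b ^ 2 + b = x * y * z then c (b * (x⁻¹ + y⁻¹ + z⁻¹)) else 0

theorem S_comm12 (c : F → R) (x y z : F) : S c x y z = S c y x z := by
  unfold S
  apply sum_congr rfl
  intro b _
  rw [mul_comm x y, add_comm x⁻¹ y⁻¹]

theorem S_comm23 (c : F → R) (x y z : F) : S c x y z = S c x z y := by
  unfold S
  apply sum_congr rfl
  intro b _
  rw [mul_right_comm x y z, add_right_comm x⁻¹ y⁻¹ z⁻¹]

theorem S_twist {c : F → R} (hc : IsChar c) (x y z : F) :
    c (x⁻¹ + y⁻¹ + z⁻¹) * S c x y z = S c x y z := by
  unfold S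
  rw [mul_sum]
  rw [← Equiv.sum_comp (Equiv.addRight (1 : F)) (fun b : F =>
    if b ^ 2 + b = x * y * z then c (b * (x⁻¹ + y⁻¹ + z⁻¹)) else 0)]
  apply sum_congr rfl
  intro b _
  rw [Equiv.coe_addRight]
  have h1 : (b + 1) ^ 2 + (b + 1) = b ^ 2 + b := by
    have := CharTwo.add_self_eq_zero (1 : F)
    linear_combination (b + 1) * this
  rw [h1, mul_ite, mul_zero]
  split_ifs
  · rw [← hc.add]; congr 1; ring
  · rfl

/-- the symmetric sum `Om` -/
def Om (c : F → R) (x v z : F) : R :=
  ∑ t : F, if t = 0 then 0 else c (x * v * z * t ^ 2 + (x + v + z) * t + t⁻¹)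

theorem Om_comm12 (c : F → R) (x v z : F) : Om c x v z = Om c v x z := by
  unfold Om
  apply sum_congr rfl
  intro b _
  rw [mul_comm x v, add_comm x v]

theorem Om_comm23 (c : F → R) (x v z : F) : Om c x v z = Om c x z v := by
  unfold Om
  apply sum_congr rfl
  intro b _
  rw [mul_right_comm x v z, add_right_comm x v z]

theorem sum_sum_ite (P : F → F → Prop) [∀ a b, Decidable (P a b)] (f : F → F → R) :
    ∑ y, ∑ b, (if P y b then f y b else 0) =
      ∑ p ∈ (univ : Finset (F × F)).filter (fun p => P p.1 p.2), f p.1 p.2 := by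
  rw [Finset.sum_filter, ← Finset.univ_product_univ, Finset.sum_product]

omit [Fintype F] [DecidableEq F] in
theorem add_eq_zero_iff_eq' (a b : F) : a + b = 0 ↔ a = b := by
  rw [← CharTwo.sub_eq_add, sub_eq_zero]

theorem sum_S_eq {c : F → R} (hc : IsChar c) {x v z : F} (hv : v ≠ 0) (hz : z ≠ 0) :
    (∑ y, if y = 0 then 0 else c (x * y + y⁻¹) * S c y v z) + c (z⁻¹ + v⁻¹ + v * z) =
      Om c x v z := by
  have hvz : v * z ≠ 0 := mul_ne_zero hv hz
  have two : (2 : F) = 0 := CharTwo.two_eq_zero
  have e1 : (∑ y, if y = 0 then 0 else c (x * y + y⁻¹) * S c y v z) =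
      ∑ y, ∑ b, if (y ≠ 0 ∧ b ^ 2 + b = y * v * z) then
        c (x * y + y⁻¹ + b * (y⁻¹ + v⁻¹ + z⁻¹)) else 0 := by
    apply sum_congr rfl
    intro y _
    split_ifs with h
    · simp [h]
    · unfold S
      rw [mul_sum]
      apply sum_congr rfl
      intro b _
      simp only [ne_eq, h, not_false_eq_true, true_and, mul_ite, mul_zero]
      split_ifs
      · rw [← hc.add]
      · rfl
  rw [e1, sum_sum_ite (fun y b => y ≠ 0 ∧ b ^ 2 + b = y * v * z)
    (fun y b => c (x * y + y⁻¹ + b * (y⁻¹ + v⁻¹ + z⁻¹)))]
  have e2 : ∑ p ∈ (univ : Finset (F × F)).filter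
      (fun p => p.1 ≠ 0 ∧ p.2 ^ 2 + p.2 = p.1 * v * z),
        c (x * p.1 + p.1⁻¹ + p.2 * (p.1⁻¹ + v⁻¹ + z⁻¹)) =
      ∑ t ∈ (univ : Finset F).filter (fun t => t ≠ 0 ∧ v * z * t ≠ 1),
        c (x * v * z * t ^ 2 + (x + v + z) * t + t⁻¹) := by
    refine Finset.sum_bij' (fun p _ => p.2 / (v * z)) (fun t _ => (v * z * t ^ 2 + t, v * z * t))
      ?_ ?_ ?_ ?_ ?_
    · rintro ⟨y, b⟩ hp
      simp only [mem_filter, mem_univ, true_and] at hp ⊢
      obtain ⟨hy, hb⟩ := hp
      constructor
      · intro h
        rw [div_eq_zero_iff] at h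
        rcases h with h | h
        · rw [h] at hb
          apply hy
          have : y * (v * z) = 0 := by linear_combination -hb
          exact (mul_eq_zero.mp this).resolve_right hvz
        · exact hvz h
      · intro h
        have h2 : b = 1 := by field_simp at h; exact h
        rw [h2] at hb
        apply hy
        have : y * (v * z) = 0 := by linear_combination -hb + two
        exact (mul_eq_zero.mp this).resolve_right hvz
    · intro t ht
      simp only [mem_filter, mem_univ, true_and] at ht ⊢
      obtain ⟨h1, h2⟩ := ht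
      constructor
      · intro h
        have : t * (v * z * t + 1) = 0 := by linear_combination h
        rcases mul_eq_zero.mp this with h3 | h3
        · exact h1 h3
        · exact h2 ((add_eq_zero_iff_eq' _ _).mp h3)
      · ring
    · rintro ⟨y, b⟩ hp
      simp only [mem_filter, mem_univ, true_and] at hp
      obtain ⟨hy, hb⟩ := hp
      ext
      · simp only
        field_simp
        linear_combination hb
      · simp only
        field_simp
    · intro t ht
      simp only
      field_simp
    · rintro ⟨y, b⟩ hp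
      simp only [mem_filter, mem_univ, true_and] at hp
      obtain ⟨hy, hb⟩ := hp
      congr 1
      have hb0 : b ≠ 0 := by
        intro h; rw [h] at hb; apply hy
        have : y * (v * z) = 0 := by linear_combination -hb
        exact (mul_eq_zero.mp this).resolve_right hvz
      have hb1 : b + 1 ≠ 0 := by
        intro h; apply hy
        have : y * (v * z) = 0 := by linear_combination b * h - hb
        exact (mul_eq_zero.mp this).resolve_right hvz
      have h1 : y = b * (b + 1) / (v * z) := by
        field_simp; linear_combination -hb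
      rw [h1]
      field_simp
      ring
  rw [e2]
  have hmem : (v * z)⁻¹ ∈ (univ : Finset F).filter (fun t => t ≠ 0) := by
    simp [hv, hz]
  have e3 : Om c x v z = ∑ t ∈ (univ : Finset F).filter (fun t => t ≠ 0),
      c (x * v * z * t ^ 2 + (x + v + z) * t + t⁻¹) := by
    unfold Om
    rw [Finset.sum_filter]
    apply sum_congr rfl
    intro t _
    by_cases h : t = 0 <;> simp [h]
  rw [e3, ← Finset.sum_erase_add _ _ hmem]
  congr 1
  · apply Finset.sum_congr _ (fun _ _ => rfl)
    ext t
    simp only [mem_filter, mem_univ, true_and, mem_erase]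
    constructor
    · rintro ⟨h1, h2⟩
      refine ⟨?_, h1⟩
      intro h3; apply h2; rw [h3]; exact mul_inv_cancel₀ hvz
    · rintro ⟨h1, h2⟩
      refine ⟨h2, ?_⟩
      intro h3; apply h1; exact eq_inv_of_mul_eq_one_right h3
  · congr 1
    have h1 : x * v * z * ((v * z)⁻¹) ^ 2 + (x + v + z) * (v * z)⁻¹ + ((v * z)⁻¹)⁻¹ =
        z⁻¹ + v⁻¹ + v * z + (x * (v * z)⁻¹ + x * (v * z)⁻¹) := by
      field_simp
      ring
    rw [h1, CharTwo.add_self_eq_zero, add_zero]

end Pool.Agent.Q280.JHK
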