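import Pool.Agent.Q280.JHK.Mat

open Finset

set_option linter.unusedSectionVars false
set_option linter.unusedSimpArgs false

namespace Pool.Agent.Q280.JHK

variable {F : Type*} [Field F] [Fintype F] [DecidableEq F] [CharP F 2]
variable {R : Type*} [CommRing R]

theorem G_OO (c : F → R) (s : R) (z w : F) :
    (K c s z * K c s w) none none = if z = w then s * c z⁻¹ * s else 0 := by
  rw [mul_entry]
  simp only [K, mul_zero, zero_mul, zero_add, ite_mul, mul_ite]
  rw [Finset.sum_eq_single z]
  · simp
  · intro y _ hy; simp [hy]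
  · simp

theorem G_OQ (c : F → R) (s : R) (z w : F) :
    (K c s z * K c s w) none (some none) = s * c z⁻¹ * c (w⁻¹ + z * w) := by
  rw [mul_entry]
  simp only [K, mul_zero, zero_mul, zero_add, ite_mul, mul_ite]
  rw [Finset.sum_eq_single z]
  · simp
  · intro y _ hy; simp [hy]
  · simp

theorem G_Ov (c : F → R) (s : R) (z w v : F) :
    (K c s z * K c s w) none (some (some v)) = s * c z⁻¹ * kk c w z v := by
  rw [mul_entry]
  simp only [K, mul_zero, zero_mul, zero_add, ite_mul, mul_ite]
  rw [Finset.sum_eq_single z]
  · simp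
  · intro y _ hy; simp [hy]
  · simp

theorem G_QQ {c : F → R} (hc : IsChar c) (s : R) (z w : F) :
    (K c s z * K c s w) (some none) (some none) =
      c w⁻¹ * (if z = w then (Fintype.card F : R) else 0) := by
  rw [mul_entry]
  simp only [K, mul_zero, zero_mul, zero_add]
  have h1 : ∀ y, c (y * z) * c (w⁻¹ + y * w) = c w⁻¹ * c ((z + w) * y) := by
    intro y
    rw [← hc.add, ← hc.add]
    congr 1
    ring
  simp only [h1]
  rw [← mul_sum, hc.sum_ite]
  simp only [add_eq_zero_iff_eq']

theorem G_Qv {c : F → R} (hc : IsChar c) (s : R) (z v : F) {w : F} (hw : w ≠ 0) :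
    (K c s z * K c s w) (some none) (some (some v)) = Om c z v w := by
  rw [mul_entry]
  simp only [K, mul_zero, zero_mul, zero_add]
  rw [← OmK hc z v hw]
  apply sum_congr rfl
  intro y _
  rw [mul_comm y z]

theorem G_00 {c : F → R} (hc : IsChar c) (s : R) {z w : F} (hz : z ≠ 0) :
    (K c s z * K c s w) (some (some 0)) (some (some 0)) =
      c z⁻¹ * (if z = w then (Fintype.card F : R) else 0) := by
  rw [mul_entry]
  simp only [K, mul_zero, zero_mul, zero_add, Ne.symm hz, if_false, add_zero, hc.zero, mul_one]
  have h1 : ∀ y, kk c z 0 y * kk c w y 0 = if y = 0 then 0 else c z⁻¹ * c ((z + w) * y) := by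
    intro y
    unfold kk
    by_cases hy : y = 0
    · simp [hy]
    · simp only [hy, if_true, if_false]
      rw [← hc.add, ← hc.add]
      congr 1
      have two : (2 : F) = 0 := CharTwo.two_eq_zero
      linear_combination y⁻¹ * two
  simp only [h1]
  have h2 : c z⁻¹ + ∑ y, (if y = 0 then 0 else c z⁻¹ * c ((z + w) * y)) =
      ∑ y, c z⁻¹ * c ((z + w) * y) := by
    rw [← Finset.sum_erase_add _ _ (mem_univ (0 : F)),
      ← Finset.sum_erase_add (univ : Finset F) (fun y => c z⁻¹ * c ((z + w) * y))
        (mem_univ (0 : F))]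
    simp only [if_true, add_zero, mul_zero, hc.zero, mul_one]
    rw [add_comm]
    congr 1
    apply sum_congr rfl
    intro y hy
    simp [(mem_erase.mp hy).1]
  rw [h2, ← mul_sum, hc.sum_ite]
  simp only [add_eq_zero_iff_eq']

theorem G_0v {c : F → R} (hc : IsChar c) (s : R) {z w v : F} (hz : z ≠ 0) (hw : w ≠ 0)
    (hv : v ≠ 0) :
    (K c s z * K c s w) (some (some 0)) (some (some v)) =
      c (z⁻¹ + v⁻¹ + w⁻¹) * Om c z v w := by
  rw [mul_entry]
  simp only [K, mul_zero, zero_mul, zero_add, Ne.symm hz, if_false, add_zero]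
  have h1 : ∀ y, kk c z 0 y * kk c w y v =
      c z⁻¹ * (if y = 0 then 0 else c (z * y) * S c y v w) := by
    intro y
    unfold kk
    by_cases hy : y = 0
    · simp [hy]
    · simp only [hy, hv, if_true, if_false]
      rw [← mul_assoc, ← mul_assoc, ← hc.add, ← hc.add]
      congr 2
      have two : (2 : F) = 0 := CharTwo.two_eq_zero
      linear_combination y⁻¹ * two
  simp only [h1]
  rw [← mul_sum, add_assoc z⁻¹ v⁻¹ w⁻¹, hc.add z⁻¹ (v⁻¹ + w⁻¹), mul_assoc (c z⁻¹),
    ← OmS hc z hv hw, mul_add]
  rw [add_comm]

theorem G_xv {c : F → R} (hc : IsChar c) {s : R} (hs : s * s = (Fintype.card F : R))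
    {x z w v : F} (hx : x ≠ 0) (hv : v ≠ 0) :
    (K c s z * K c s w) (some (some x)) (some (some v)) = c x⁻¹ * Cc c x z v w := by
  rw [mul_entry]
  simp only [K]
  have h1 : ∑ y, kk c z x y * kk c w y v =
      c x⁻¹ * (∑ y, if y = 0 then 0 else c y⁻¹ * S c x y z * S c y v w) +
        c (x⁻¹ + x * z) * c (w⁻¹ + v⁻¹ + v * w) := by
    rw [← Finset.sum_erase_add _ _ (mem_univ (0 : F)), mul_sum,
      ← Finset.sum_erase_add (univ : Finset F) (fun y => c x⁻¹ * (if y = 0 then 0 else
        c y⁻¹ * S c x y z * S c y v w)) (mem_univ (0 : F))]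
    simp only [if_true, mul_zero, add_zero]
    congr 1
    · apply sum_congr rfl
      intro y hy
      have hy0 : y ≠ 0 := (mem_erase.mp hy).1
      unfold kk
      simp only [hy0, hv, hx, if_false]
      ring
    · unfold kk
      simp [hx, hv]
  rw [h1]
  unfold Cc
  have h2 : c (x⁻¹ + x * z) * c (w⁻¹ + v⁻¹ + v * w) =
      c x⁻¹ * (c (x * z + v * w) * c (v⁻¹ + w⁻¹)) := by
    rw [← hc.add, ← hc.add, ← hc.add]; congr 1; ring
  have h3 : c (z⁻¹ + x * z) * c (v * w) = c x⁻¹ * (c (x * z + v * w) * c (x⁻¹ + z⁻¹)) := by
    rw [← hc.add, ← hc.add, ← hc.add]; congr 1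
    have two : (2 : F) = 0 := CharTwo.two_eq_zero
    linear_combination (-x⁻¹) * two
  have h4 : (if x = z then s else 0) * (if v = w then s * c w⁻¹ else 0) =
      c x⁻¹ * (if x = z ∧ v = w then (Fintype.card F : R) * c (x⁻¹ + w⁻¹) else 0) := by
    by_cases ha : x = z <;> by_cases hb : v = w
    · simp only [ha, hb, and_self, if_true]
      rw [hc.add, ← hs]
      linear_combination (-(s * s * c w⁻¹)) * (hc.sq z⁻¹)
    · simp [hb]
    · simp [ha]
    · simp [ha]
  rw [h2, h3, h4]
  ring

theorem K_comm {c : F → R} (hc : IsChar c) {s : R} (hs : s * s = (Fintype.card F : R))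
    {z w : F} (hz : z ≠ 0) (hw : w ≠ 0) : K c s z * K c s w = K c s w * K c s z := by
  have tr : ∀ a b, (K c s z * K c s w) a b = (K c s w * K c s z) a b →
      (K c s z * K c s w) b a = (K c s w * K c s z) b a := by
    intro a b h
    have e : ∀ z w, (K c s z * K c s w) b a = c z⁻¹ * c w⁻¹ * (K c s w * K c s z) a b := by
      intro z w
      rw [Matrix.mul_apply, Matrix.mul_apply, mul_sum]
      apply sum_congr rfl
      intro j _
      rw [K_tr hc s z j b, K_tr hc s w a j]
      ring
    rw [e z w, e w z, h]
    ring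
  have e1 : ∀ a b, (K c s z * K c s w) a b = (K c s w * K c s z) a b := by
    have hOO : (K c s z * K c s w) none none = (K c s w * K c s z) none none := by
      rw [G_OO, G_OO]
      by_cases h : z = w
      · simp [h]
      · simp [h, Ne.symm h]
    have hOQ : (K c s z * K c s w) none (some none) = (K c s w * K c s z) none (some none) := by
      rw [G_OQ, G_OQ, hc.add, hc.add, mul_comm z w]; ring
    have hOv : ∀ v, (K c s z * K c s w) none (some (some v)) =
        (K c s w * K c s z) none (some (some v)) := by
      intro v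
      rw [G_Ov, G_Ov]
      unfold kk
      by_cases hv : v = 0
      · simp only [hv, hz, hw, if_true, if_false]
        rw [hc.add, hc.add, mul_comm z w]
        linear_combination (s * c (w * z)) * (hc.sq z⁻¹) - (s * c (w * z)) * (hc.sq w⁻¹)
      · simp only [hv, hz, hw, if_false]
        rw [S_comm12 c z v w, S_comm23 c v z w, S_comm12 c w v z]
        linear_combination (s * S c v w z) * (hc.sq z⁻¹) - (s * S c v w z) * (hc.sq w⁻¹)
    have hQQ : (K c s z * K c s w) (some none) (some none) =
        (K c s w * K c s z) (some none) (some none) := by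
      rw [G_QQ hc, G_QQ hc]
      by_cases h : z = w
      · simp [h]
      · simp [h, Ne.symm h]
    have hQv : ∀ v, (K c s z * K c s w) (some none) (some (some v)) =
        (K c s w * K c s z) (some none) (some (some v)) := by
      intro v
      rw [G_Qv hc s z v hw, G_Qv hc s w v hz, Om_comm23, Om_comm12, Om_comm23]
    have h00 : (K c s z * K c s w) (some (some 0)) (some (some 0)) =
        (K c s w * K c s z) (some (some 0)) (some (some 0)) := by
      rw [G_00 hc s hz, G_00 hc s hw]
      by_cases h : z = w
      · simp [h]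
      · simp [h, Ne.symm h]
    have h0v : ∀ v, v ≠ 0 → (K c s z * K c s w) (some (some 0)) (some (some v)) =
        (K c s w * K c s z) (some (some 0)) (some (some v)) := by
      intro v hv
      rw [G_0v hc s hz hw hv, G_0v hc s hw hz hv, Om_comm23 c z v w, Om_comm12 c z w v,
        Om_comm23 c w z v]
      congr 2
      ring
    have hxv : ∀ x v, x ≠ 0 → v ≠ 0 → (K c s z * K c s w) (some (some x)) (some (some v)) =
        (K c s w * K c s z) (some (some x)) (some (some v)) := by
      intro x v hx hv
      rw [G_xv hc hs hx hv, G_xv hc hs hx hv, Cc_swap hc hx hz hv hw]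
    intro a b
    rcases a with _ | _ | x <;> rcases b with _ | _ | v
    · exact hOO
    · exact hOQ
    · exact hOv v
    · exact tr _ _ hOQ
    · exact hQQ
    · exact hQv v
    · exact tr _ _ (hOv x)
    · exact tr _ _ (hQv x)
    · by_cases hx : x = 0 <;> by_cases hv : v = 0
      · rw [hx, hv]; exact h00
      · rw [hx]; exact h0v v hv
      · rw [hv]; exact tr _ _ (h0v x hx)
      · exact hxv x v hx hv
  ext a b
  exact e1 a b

theorem T_comm {c : F → R} (hc : IsChar c) {s : R} (hs : s * s = (Fintype.card F : R))
    {z : F} (hz : z ≠ 0) : T c s * K c s z = K c s z * T c s := by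
  ext a b
  rw [mul_entry, mul_entry]
  rcases a with _ | _ | x <;> rcases b with _ | _ | v
  · -- O O
    simp only [K, T, mul_zero, zero_mul, zero_add, add_zero, ite_mul, mul_ite, sum_const_zero]
    apply Finset.sum_congr rfl
    intro y _
    by_cases h : y = z
    · simp [h, hz]
    · simp [h]
  · -- O Q
    simp [K, T]
  · -- O v
    simp only [K, T, mul_zero, zero_mul, zero_add, add_zero, ite_mul, mul_ite, sum_const_zero]
    rw [Finset.sum_eq_single z]
    · simp only [hz, if_true, if_false]
      rw [mul_assoc, ← hc.add, ← add_assoc, CharTwo.add_self_eq_zero, zero_add, mul_comm z v]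
      simp
    · intro y _ hy; simp [hy]
    · simp
  · -- Q O
    simp only [K, T, mul_zero, zero_mul, zero_add, add_zero, ite_mul, mul_ite, one_mul]
    rw [Finset.sum_ite_eq' univ z, Finset.sum_ite_eq' univ (0 : F)]
    simp [hc.zero]
  · -- Q Q
    simp only [K, T, mul_zero, zero_mul, zero_add, add_zero, ite_mul, mul_ite, one_mul,
      sum_const_zero]
    have h1 : ∀ y, c (z⁻¹ + y * z) = c z⁻¹ * c (z * y) := by
      intro y
      rw [← hc.add, mul_comm y z]
    simp only [h1]
    rw [← mul_sum, hc.sum z hz, mul_zero]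
  · -- Q v
    simp only [K, T, mul_zero, zero_mul, zero_add, add_zero, one_mul]
    have h1 : ∑ y, kk c z y v = Om c 0 v z := by
      rw [← OmK hc 0 v hz]
      apply sum_congr rfl
      intro y _
      rw [zero_mul, hc.zero, one_mul]
    rw [h1]
    unfold Om
    apply sum_congr rfl
    intro y _
    by_cases hy : y = 0
    · simp [hy]
    · simp only [hy, if_false]
      rw [← hc.add]
      congr 1
      ring
  · -- x O
    simp only [K, T, mul_zero, zero_mul, zero_add, add_zero, ite_mul, mul_ite]
    rw [Finset.sum_ite_eq' univ (0 : F)]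
    simp only [mem_univ, if_true]
    unfold kk
    by_cases hx : x = 0
    · simp [hx]
    · simp [hx]
  · -- x Q
    simp only [K, T, mul_zero, zero_mul, zero_add, add_zero, ite_mul, mul_ite, sum_const_zero]
    by_cases hx : x = 0
    · simp [hx, Ne.symm hz]
    · simp only [hx, if_false]
      have h1 : ∀ y, c (x⁻¹ + x * y) * c (z⁻¹ + y * z) = c (x⁻¹ + z⁻¹) * c ((x + z) * y) := by
        intro y
        rw [← hc.add, ← hc.add]
        congr 1
        ring
      simp only [h1]
      rw [← mul_sum, hc.sum_ite]
      simp only [add_eq_zero_iff_eq']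
      by_cases h : x = z
      · simp only [h, if_true]
        rw [CharTwo.add_self_eq_zero, hc.zero, one_mul, hs]
      · simp [h]
  · -- x v
    by_cases hx : x = 0
    · subst hx
      simp only [K, T, mul_zero, zero_mul, zero_add, add_zero, if_true, sum_const_zero,
        Ne.symm hz, if_false, mul_one]
      have h1 : ∀ y, kk c z 0 y * (if y = 0 then 0 else c (y⁻¹ + y * v)) =
          if y = 0 then 0 else c z⁻¹ * c ((z + v) * y) := by
        intro y
        unfold kk
        by_cases hy : y = 0
        · simp [hy]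
        · simp only [hy, if_true, if_false]
          rw [← hc.add, ← hc.add]
          congr 1
          have two : (2 : F) = 0 := CharTwo.two_eq_zero
          linear_combination y⁻¹ * two
      simp only [h1]
      have h2 : c z⁻¹ + ∑ y, (if y = 0 then 0 else c z⁻¹ * c ((z + v) * y)) =
          ∑ y, c z⁻¹ * c ((z + v) * y) := by
        rw [← Finset.sum_erase_add _ _ (mem_univ (0 : F)),
          ← Finset.sum_erase_add (univ : Finset F) (fun y => c z⁻¹ * c ((z + v) * y))
            (mem_univ (0 : F))]
        simp only [if_true, add_zero, mul_zero, hc.zero, mul_one]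
        rw [add_comm]
        congr 1
        apply sum_congr rfl
        intro y hy
        simp [(mem_erase.mp hy).1]
      rw [h2, ← mul_sum, hc.sum_ite]
      simp only [add_eq_zero_iff_eq']
      by_cases h : z = v
      · simp only [h, if_true]
        rw [← mul_assoc, hs, mul_comm]
      · simp [h, Ne.symm h]
    · simp only [K, T, mul_zero, zero_mul, zero_add, add_zero, hx, if_false, mul_one]
      have h1 : ∑ y, c (x⁻¹ + x * y) * kk c z y v = c x⁻¹ * Om c x v z := by
        rw [← OmK hc x v hz, mul_sum]
        apply sum_congr rfl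
        intro y _
        rw [hc.add, mul_assoc]
      have h2 : ∑ y, kk c z x y * (if y = 0 then 0 else c (y⁻¹ + y * v)) =
          c x⁻¹ * ∑ y, (if y = 0 then 0 else c (v * y + y⁻¹) * S c y x z) := by
        rw [mul_sum]
        apply sum_congr rfl
        intro y _
        unfold kk
        by_cases hy : y = 0
        · simp [hy]
        · simp only [hy, hx, if_false]
          rw [S_comm12 c x y z, add_comm (v * y) y⁻¹, mul_comm v y]
          ring
      rw [h1, h2]
      have h3 := sum_S_eq (x := v) hc hx hz
      have h4 : c (z⁻¹ + x * z) = c x⁻¹ * c (z⁻¹ + x⁻¹ + x * z) := by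
        rw [← hc.add]
        congr 1
        have two : (2 : F) = 0 := CharTwo.two_eq_zero
        linear_combination (-x⁻¹) * two
      rw [h4, add_comm (c x⁻¹ * c (z⁻¹ + x⁻¹ + x * z)), ← mul_add, h3, Om_comm12]

end Pool.Agent.Q280.JHK
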