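import Pool.Agent.Q280.JHK.Basic

/-!
The core identity: the sum over the middle point of two kernels is a symmetric function of the
four outer points.
-/

open Finset

set_option linter.unusedSectionVars false

namespace Pool.Agent.Q280.JHK

variable {F : Type*} [Field F] [Fintype F] [DecidableEq F] [CharP F 2]
variable {R : Type*} [CommRing R]

/-- the phase of the symmetric sum -/
def ph (X Z V W s : F) : F :=
  (s * (X * Z * (V * W) * s + 1))⁻¹ + (X ^ 2 + Z ^ 2 + V ^ 2 + W ^ 2) * s +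
    (X * Z + V * W) * (X * V + Z * W) * (X * W + Z * V) * s ^ 2

/-- the symmetric sum -/
def Th (c : F → R) (X Z V W : F) : R :=
  ∑ s ∈ (univ : Finset F).filter (fun s => s ≠ 0 ∧ X * Z * (V * W) * s ≠ 1), c (ph X Z V W s)

theorem Th_swap (c : F → R) (X Z V W : F) : Th c X Z V W = Th c X W V Z := by
  unfold Th
  have h1 : ∀ s, X * Z * (V * W) * s = X * W * (V * Z) * s := fun s => by ring
  have h2 : ∀ s, ph X Z V W s = ph X W V Z s := by
    intro s
    unfold ph
    rw [h1]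
    ring
  simp only [h1, h2]

/-- triples -/
def tri (x z v w : F) : Finset (F × F × F) :=
  (univ : Finset (F × F × F)).filter
    (fun p => p.1 ≠ 0 ∧ p.2.1 ^ 2 + p.2.1 = x * z * p.1 ∧ p.2.2 ^ 2 + p.2.2 = v * w * p.1)

/-- phase of a triple -/
def tph (x z v w : F) (p : F × F × F) : F :=
  p.1⁻¹ + p.2.1 * (x⁻¹ + p.1⁻¹ + z⁻¹) + p.2.2 * (p.1⁻¹ + v⁻¹ + w⁻¹)

theorem mid_eq_tri {c : F → R} (hc : IsChar c) (x z v w : F) :
    (∑ y, if y = 0 then 0 else c y⁻¹ * S c x y z * S c y v w) =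
      ∑ p ∈ tri x z v w, c (tph x z v w p) := by
  have e0 : ∑ p ∈ tri x z v w, c (tph x z v w p) =
      ∑ y, ∑ b, ∑ d, if (y ≠ 0 ∧ b ^ 2 + b = x * z * y ∧ d ^ 2 + d = v * w * y) then
        c (tph x z v w (y, b, d)) else 0 := by
    unfold tri
    rw [Finset.sum_filter, ← Finset.univ_product_univ, Finset.sum_product]
    apply sum_congr rfl
    intro y _
    rw [← Finset.univ_product_univ, Finset.sum_product]
  rw [e0]
  apply sum_congr rfl
  intro y _
  split_ifs with h
  · simp [h]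
  · unfold S
    rw [mul_assoc, sum_mul_sum, mul_sum]
    apply sum_congr rfl
    intro b _
    rw [mul_sum]
    apply sum_congr rfl
    intro d _
    have h1 : x * y * z = x * z * y := by ring
    have h2 : y * v * w = v * w * y := by ring
    rw [h1, h2]
    simp only [ne_eq, h, not_false_eq_true, true_and, mul_ite, mul_zero, ite_mul, zero_mul]
    unfold tph
    by_cases hb : b ^ 2 + b = x * z * y <;> by_cases hd : d ^ 2 + d = v * w * y
    · simp only [hb, hd, and_self, if_true]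
      rw [← hc.add, ← hc.add]
      congr 1
      ring
    · simp [hb, hd]
    · simp [hb, hd]
    · simp [hb, hd]

theorem aux_ne {p r y b d : F} (hp : p ≠ 0) (hr : r ≠ 0) (hpr : p ≠ r)
    (hb : b ^ 2 + b = p ^ 2 * y) (hd : d ^ 2 + d = r ^ 2 * y) (h : r * b = p * d) : y = 0 := by
  have h1 : p * d * (r - p) = 0 := by
    linear_combination r ^ 2 * hb - p ^ 2 * hd - (r * b + p * d) * h - r * h
  have h2 : r - p ≠ 0 := sub_ne_zero.mpr (Ne.symm hpr)
  have h3 : d = 0 := by
    have := (mul_eq_zero.mp h1).resolve_right h2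
    exact (mul_eq_zero.mp this).resolve_left hp
  rw [h3] at hd
  have h4 : r ^ 2 * y = 0 := by linear_combination -hd
  exact (mul_eq_zero.mp h4).resolve_left (pow_ne_zero 2 hr)

theorem shift_sq (b e : F) (hb : b ^ 2 + b = e) : (b + 1) ^ 2 + (b + 1) = e := by
  have two : (2 : F) = 0 := CharTwo.two_eq_zero
  linear_combination hb + (b + 1) * two


/-- the four excluded points removed -/
def good (X Z V W : F) : Finset F :=
  (univ : Finset F).filter (fun s => s ≠ 0 ∧ X * Z * (V * W) * s ≠ 1 ∧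
    X * Z * (X * Z + V * W) * s ≠ 1 ∧ V * W * (X * Z + V * W) * s ≠ 1)

theorem one_add_ne {a : F} (h : a ≠ 1) : 1 + a ≠ 0 := by
  intro h1
  exact h ((add_eq_zero_iff_eq' _ _).mp h1).symm

/-- the parametrisation by `s` -/
def par (X Z V W s : F) : F × F × F :=
  (s * ((1 + V * W * (X * Z + V * W) * s) * (1 + X * Z * (X * Z + V * W) * s)) *
      (1 + X * Z * (V * W) * s),
    (X * Z) ^ 2 * s * (1 + V * W * (X * Z + V * W) * s),
    (V * W) ^ 2 * s * (1 + X * Z * (X * Z + V * W) * s))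

theorem phase_eq {X Z V W s : F} (hX : X ≠ 0) (hZ : Z ≠ 0) (hV : V ≠ 0)
    (hW : W ≠ 0) (hs : s ∈ good X Z V W) :
    tph (X ^ 2) (Z ^ 2) (V ^ 2) (W ^ 2) (par X Z V W s) = ph X Z V W s := by
  have two : (2 : F) = 0 := CharTwo.two_eq_zero
  simp only [good, mem_filter, mem_univ, true_and] at hs
  obtain ⟨h0, h1, h2, h3⟩ := hs
  have g1 := one_add_ne h1
  have g2 := one_add_ne h2
  have g3 := one_add_ne h3
  have hy : (s * ((1 + V * W * (X * Z + V * W) * s) * (1 + X * Z * (X * Z + V * W) * s)) *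
      (1 + X * Z * (V * W) * s)) ≠ 0 := mul_ne_zero (mul_ne_zero h0 (mul_ne_zero g3 g2)) g1
  unfold tph par ph
  simp only
  have e1 : (1 + (X * Z) ^ 2 * s * (1 + V * W * (X * Z + V * W) * s) +
      (V * W) ^ 2 * s * (1 + X * Z * (X * Z + V * W) * s)) =
      (1 + V * W * (X * Z + V * W) * s) * (1 + X * Z * (X * Z + V * W) * s) := by
    linear_combination (-(X * Z * (V * W) * s)) * two
  have e2 : (1 + (X * Z) ^ 2 * s * (1 + V * W * (X * Z + V * W) * s) +
      (V * W) ^ 2 * s * (1 + X * Z * (X * Z + V * W) * s)) *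
      (s * ((1 + V * W * (X * Z + V * W) * s) * (1 + X * Z * (X * Z + V * W) * s)) *
      (1 + X * Z * (V * W) * s))⁻¹ = (s * (X * Z * (V * W) * s + 1))⁻¹ := by
    rw [e1, add_comm (X * Z * (V * W) * s) 1]
    field_simp
  have e3 : (X * Z) ^ 2 * s * (1 + V * W * (X * Z + V * W) * s) * ((X ^ 2)⁻¹ + (Z ^ 2)⁻¹) =
      s * (1 + V * W * (X * Z + V * W) * s) * (X ^ 2 + Z ^ 2) := by
    field_simp
    ring
  have e4 : (V * W) ^ 2 * s * (1 + X * Z * (X * Z + V * W) * s) * ((V ^ 2)⁻¹ + (W ^ 2)⁻¹) =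
      s * (1 + X * Z * (X * Z + V * W) * s) * (V ^ 2 + W ^ 2) := by
    field_simp
    ring
  linear_combination e2 + e3 + e4

theorem tri_eq {c : F → R} {X Z V W : F} (hX : X ≠ 0) (hZ : Z ≠ 0) (hV : V ≠ 0)
    (hW : W ≠ 0) (hne : X * Z ≠ V * W) :
    ∑ p ∈ tri (X ^ 2) (Z ^ 2) (V ^ 2) (W ^ 2), c (tph (X ^ 2) (Z ^ 2) (V ^ 2) (W ^ 2) p) =
      ∑ s ∈ good X Z V W, c (ph X Z V W s) := by
  have two : (2 : F) = 0 := CharTwo.two_eq_zero
  obtain ⟨p, hp⟩ : ∃ p, p = X * Z := ⟨_, rfl⟩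
  obtain ⟨r, hr⟩ : ∃ r, r = V * W := ⟨_, rfl⟩
  have hp0 : p ≠ 0 := by rw [hp]; exact mul_ne_zero hX hZ
  have hr0 : r ≠ 0 := by rw [hr]; exact mul_ne_zero hV hW
  have hpr : p ≠ r := by rw [hp, hr]; exact hne
  have hpr0 : p + r ≠ 0 := fun h => hpr ((add_eq_zero_iff_eq' _ _).mp h)
  have hp2 : X ^ 2 * Z ^ 2 = p ^ 2 := by rw [hp]; ring
  have hr2 : V ^ 2 * W ^ 2 = r ^ 2 := by rw [hr]; ring
  have hmem : ∀ q ∈ tri (X ^ 2) (Z ^ 2) (V ^ 2) (W ^ 2),
      (r * q.2.1 + p * q.2.2) / (p * r * (p + r)) ∈ good X Z V W := by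
    rintro ⟨y, b, d⟩ hq
    simp only [tri, good, mem_filter, mem_univ, true_and, hp2, hr2, ← hp, ← hr] at hq ⊢
    obtain ⟨hy, hb, hd⟩ := hq
    have hb' := shift_sq b _ hb
    have hd' := shift_sq d _ hd
    refine ⟨?_, ?_, ?_, ?_⟩
    · intro h
      rw [div_eq_zero_iff] at h
      rcases h with h | h
      · exact hy (aux_ne hp0 hr0 hpr hb hd ((add_eq_zero_iff_eq' _ _).mp h))
      · exact (mul_ne_zero (mul_ne_zero hp0 hr0) hpr0) h
    · intro h
      apply hy
      apply aux_ne hp0 hr0 hpr hb' hd'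
      field_simp at h
      linear_combination h + (r - p * d) * two
    · intro h
      apply hy
      apply aux_ne hp0 hr0 hpr hb' hd
      field_simp at h
      linear_combination h - (p * d - r) * two
    · intro h
      apply hy
      apply aux_ne hp0 hr0 hpr hb hd'
      field_simp at h
      linear_combination h - (p * d) * two
  have hleft : ∀ q ∈ tri (X ^ 2) (Z ^ 2) (V ^ 2) (W ^ 2),
      par X Z V W ((r * q.2.1 + p * q.2.2) / (p * r * (p + r))) = q := by
    rintro ⟨y, b, d⟩ hq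
    simp only [tri, mem_filter, mem_univ, true_and, hp2, hr2] at hq
    obtain ⟨hy, hb, hd⟩ := hq
    have hb1 : p ^ 2 * ((r * b + p * d) / (p * r * (p + r))) *
        (1 + r * (p + r) * ((r * b + p * d) / (p * r * (p + r)))) = b := by
      field_simp
      linear_combination r ^ 2 * hb + p ^ 2 * hd +
        (p ^ 2 * r ^ 2 * y - r ^ 2 * b + r * b * p * d) * two
    have hd1 : r ^ 2 * ((r * b + p * d) / (p * r * (p + r))) *
        (1 + p * (p + r) * ((r * b + p * d) / (p * r * (p + r)))) = d := by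
      field_simp
      linear_combination r ^ 2 * hb + p ^ 2 * hd +
        (p ^ 2 * r ^ 2 * y - p ^ 2 * d + r * b * p * d) * two
    simp only [par, ← hp, ← hr]
    obtain ⟨s0, hs0⟩ : ∃ s0, s0 = (r * b + p * d) / (p * r * (p + r)) := ⟨_, rfl⟩
    rw [← hs0] at hb1 hd1 ⊢
    have hy1 : s0 * ((1 + r * (p + r) * s0) * (1 + p * (p + r) * s0)) * (1 + p * r * s0) = y := by
      have h5 : p ^ 2 * (s0 * ((1 + r * (p + r) * s0) * (1 + p * (p + r) * s0)) *
          (1 + p * r * s0)) = p ^ 2 * y := by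
        linear_combination (1 + p ^ 2 * s0 * (1 + r * (p + r) * s0) + b) * hb1 + hb +
          (p * r * s0 * (p ^ 2 * s0 * (1 + r * (p + r) * s0))) * two
      exact mul_left_cancel₀ (pow_ne_zero 2 hp0) h5
    rw [hy1, hb1, hd1]
  refine Finset.sum_bij' (fun q _ => (r * q.2.1 + p * q.2.2) / (p * r * (p + r)))
    (fun s _ => par X Z V W s) hmem ?_ hleft ?_ ?_
  · intro s hs
    simp only [tri, good, par, mem_filter, mem_univ, true_and, hp2, hr2, ← hp, ← hr] at hs ⊢
    obtain ⟨h0, h1, h2, h3⟩ := hs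
    refine ⟨?_, ?_, ?_⟩
    · exact mul_ne_zero (mul_ne_zero h0 (mul_ne_zero (one_add_ne h3) (one_add_ne h2)))
        (one_add_ne h1)
    · linear_combination (-(p ^ 2 * s * (1 + r * (p + r) * s)) * (p * r * s)) * two
    · linear_combination (-(r ^ 2 * s * (1 + p * (p + r) * s)) * (p * r * s)) * two
  · intro s hs
    simp only [par, ← hp, ← hr]
    field_simp
    linear_combination (s * (p * r * s * (p + r))) * two
  · intro q hq
    congr 1
    conv_lhs => rw [← hleft q hq]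
    exact phase_eq hX hZ hV hW (hmem q hq)

end Pool.Agent.Q280.JHK
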