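import Pool.Agent.Q280.JHK.Core

open Finset

set_option linter.unusedSectionVars false

namespace Pool.Agent.Q280.JHK

variable {F : Type*} [Field F] [Fintype F] [DecidableEq F] [CharP F 2]
variable {R : Type*} [CommRing R]

theorem Th_ne (c : F → R) {X Z V W : F} (hX : X ≠ 0) (hZ : Z ≠ 0) (hV : V ≠ 0)
    (hW : W ≠ 0) (hne : X * Z ≠ V * W) :
    Th c X Z V W = ∑ s ∈ good X Z V W, c (ph X Z V W s) +
      (c (X ^ 2 * Z ^ 2 + V ^ 2 * W ^ 2 + ((V ^ 2)⁻¹ + (W ^ 2)⁻¹)) +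
       c (X ^ 2 * Z ^ 2 + V ^ 2 * W ^ 2 + ((X ^ 2)⁻¹ + (Z ^ 2)⁻¹))) := by
  have two : (2 : F) = 0 := CharTwo.two_eq_zero
  have hp0 : X * Z ≠ 0 := mul_ne_zero hX hZ
  have hr0 : V * W ≠ 0 := mul_ne_zero hV hW
  have hpr0 : X * Z + V * W ≠ 0 := fun h => hne ((add_eq_zero_iff_eq' _ _).mp h)
  obtain ⟨s1, hs1⟩ : ∃ s1, s1 = (X * Z * (X * Z + V * W))⁻¹ := ⟨_, rfl⟩
  obtain ⟨s2, hs2⟩ : ∃ s2, s2 = (V * W * (X * Z + V * W))⁻¹ := ⟨_, rfl⟩
  have n1 : X * Z * (X * Z + V * W) ≠ 0 := mul_ne_zero hp0 hpr0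
  have n2 : V * W * (X * Z + V * W) ≠ 0 := mul_ne_zero hr0 hpr0
  have h12 : s1 ≠ s2 := by
    intro h
    rw [hs1, hs2, inv_inj] at h
    exact hne (mul_right_cancel₀ hpr0 h)
  have hm1 : s1 ∈ (univ : Finset F).filter (fun s => s ≠ 0 ∧ X * Z * (V * W) * s ≠ 1) := by
    simp only [mem_filter, mem_univ, true_and]
    refine ⟨by rw [hs1]; exact inv_ne_zero n1, ?_⟩
    intro h
    rw [hs1] at h
    field_simp at h
    apply hp0
    rw [hs1] at *
    linear_combination -h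
  have hm2 : s2 ∈ (univ : Finset F).filter (fun s => s ≠ 0 ∧ X * Z * (V * W) * s ≠ 1) := by
    simp only [mem_filter, mem_univ, true_and]
    refine ⟨by rw [hs2]; exact inv_ne_zero n2, ?_⟩
    intro h
    rw [hs2] at h
    field_simp at h
    apply hr0
    linear_combination -h
  have hm1' : s1 ∈ ((univ : Finset F).filter
      (fun s => s ≠ 0 ∧ X * Z * (V * W) * s ≠ 1)).erase s2 := mem_erase.mpr ⟨h12, hm1⟩
  have hg : good X Z V W = (((univ : Finset F).filter
      (fun s => s ≠ 0 ∧ X * Z * (V * W) * s ≠ 1)).erase s2).erase s1 := by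
    ext s
    simp only [good, mem_filter, mem_univ, true_and, mem_erase]
    have k1 : X * Z * (X * Z + V * W) * s = 1 ↔ s = s1 := by
      rw [hs1]
      constructor
      · intro h; exact eq_inv_of_mul_eq_one_right h
      · intro h; rw [h]; exact mul_inv_cancel₀ n1
    have k2 : V * W * (X * Z + V * W) * s = 1 ↔ s = s2 := by
      rw [hs2]
      constructor
      · intro h; exact eq_inv_of_mul_eq_one_right h
      · intro h; rw [h]; exact mul_inv_cancel₀ n2
    simp only [ne_eq, k1, k2]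
    tauto
  have v1 : ph X Z V W s1 = X ^ 2 * Z ^ 2 + V ^ 2 * W ^ 2 + ((X ^ 2)⁻¹ + (Z ^ 2)⁻¹) := by
    have a1 : (s1 * (X * Z * (V * W) * s1 + 1))⁻¹ = X ^ 2 * Z ^ 2 + V ^ 2 * W ^ 2 := by
      have b1 : X * Z * (V * W) * s1 + 1 = X * Z * (X * Z + V * W)⁻¹ := by
        rw [hs1]
        field_simp
        linear_combination (V * W) * two
      rw [b1, hs1]
      field_simp
      linear_combination (X * Z * V * W) * two
    have a2 : (X ^ 2 + Z ^ 2 + V ^ 2 + W ^ 2) * s1 +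
        (X * Z + V * W) * (X * V + Z * W) * (X * W + Z * V) * s1 ^ 2 =
        (X ^ 2)⁻¹ + (Z ^ 2)⁻¹ := by
      rw [hs1]
      field_simp
      linear_combination (X * Z * (V ^ 2 + W ^ 2)) * two
    unfold ph
    rw [a1, add_assoc, a2]
  have v2 : ph X Z V W s2 = X ^ 2 * Z ^ 2 + V ^ 2 * W ^ 2 + ((V ^ 2)⁻¹ + (W ^ 2)⁻¹) := by
    have a1 : (s2 * (X * Z * (V * W) * s2 + 1))⁻¹ = X ^ 2 * Z ^ 2 + V ^ 2 * W ^ 2 := by
      have b1 : X * Z * (V * W) * s2 + 1 = V * W * (X * Z + V * W)⁻¹ := by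
        rw [hs2]
        field_simp
        linear_combination (X * Z) * two
      rw [b1, hs2]
      field_simp
      linear_combination (X * Z * V * W) * two
    have a2 : (X ^ 2 + Z ^ 2 + V ^ 2 + W ^ 2) * s2 +
        (X * Z + V * W) * (X * V + Z * W) * (X * W + Z * V) * s2 ^ 2 =
        (V ^ 2)⁻¹ + (W ^ 2)⁻¹ := by
      rw [hs2]
      field_simp
      linear_combination (V * W * (X ^ 2 + Z ^ 2)) * two
    unfold ph
    rw [a1, add_assoc, a2]
  rw [hg, Th, ← Finset.sum_erase_add _ _ hm2, ← Finset.sum_erase_add _ _ hm1', v1, v2]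
  ring

theorem Th_eq (c : F → R) (hc : IsChar c) {X Z V W : F} (hX : X ≠ 0) (hZ : Z ≠ 0) (hV : V ≠ 0)
    (hW : W ≠ 0) (heq : X * Z = V * W) :
    ∑ p ∈ tri (X ^ 2) (Z ^ 2) (V ^ 2) (W ^ 2), c (tph (X ^ 2) (Z ^ 2) (V ^ 2) (W ^ 2) p) +
      (c ((V ^ 2)⁻¹ + (W ^ 2)⁻¹) + c ((X ^ 2)⁻¹ + (Z ^ 2)⁻¹)) =
    Th c X Z V W + (if X + Z = V + W then (Fintype.card F : R) * c ((V ^ 2)⁻¹ + (W ^ 2)⁻¹)
      else 0) := by
  have two : (2 : F) = 0 := CharTwo.two_eq_zero
  obtain ⟨p, hp⟩ : ∃ p, p = X * Z := ⟨_, rfl⟩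
  have hr : p = V * W := by rw [hp]; exact heq
  have hp0 : p ≠ 0 := by rw [hp]; exact mul_ne_zero hX hZ
  have hp2 : X ^ 2 * Z ^ 2 = p ^ 2 := by rw [hp]; ring
  have hr2 : V ^ 2 * W ^ 2 = p ^ 2 := by rw [hr]; ring
  obtain ⟨e, he⟩ : ∃ e, e = (X ^ 2)⁻¹ + (Z ^ 2)⁻¹ + ((V ^ 2)⁻¹ + (W ^ 2)⁻¹) := ⟨_, rfl⟩
  have he2 : p ^ 2 * e = X ^ 2 + Z ^ 2 + V ^ 2 + W ^ 2 := by
    have a1 : p ^ 2 * ((X ^ 2)⁻¹ + (Z ^ 2)⁻¹) = X ^ 2 + Z ^ 2 := by
      rw [hp]; field_simp; ring
    have a2 : p ^ 2 * ((V ^ 2)⁻¹ + (W ^ 2)⁻¹) = V ^ 2 + W ^ 2 := by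
      rw [hr]; field_simp; ring
    rw [he]
    linear_combination a1 + a2
  have he0 : e = 0 ↔ X + Z = V + W := by
    have a1 : (X + Z + (V + W)) ^ 2 = p ^ 2 * e := by
      rw [he2]
      linear_combination (X * Z + V * W + (X + Z) * (V + W)) * two
    constructor
    · intro h
      rw [h, mul_zero] at a1
      exact (add_eq_zero_iff_eq' _ _).mp (pow_eq_zero_iff (two_ne_zero)|>.mp a1)
    · intro h
      rw [(add_eq_zero_iff_eq' _ _).mpr h] at a1
      have : p ^ 2 * e = 0 := by rw [← a1]; ring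
      exact (mul_eq_zero.mp this).resolve_left (pow_ne_zero 2 hp0)
  rw [← Finset.sum_filter_add_sum_filter_not (tri (X ^ 2) (Z ^ 2) (V ^ 2) (W ^ 2))
    (fun q => q.2.2 = q.2.1)]
  have f1 : ∑ q ∈ (tri (X ^ 2) (Z ^ 2) (V ^ 2) (W ^ 2)).filter (fun q => q.2.2 = q.2.1),
      c (tph (X ^ 2) (Z ^ 2) (V ^ 2) (W ^ 2) q) = Th c X Z V W := by
    unfold Th
    refine Finset.sum_bij' (fun q _ => q.2.1 / p ^ 2)
      (fun s _ => (s * (p ^ 2 * s + 1), p ^ 2 * s, p ^ 2 * s)) ?_ ?_ ?_ ?_ ?_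
    · rintro ⟨y, b, d⟩ hq
      simp only [tri, mem_filter, mem_univ, true_and, hp2, hr2, ← hp, ← hr] at hq ⊢
      obtain ⟨⟨hy, hb, hd⟩, hbd⟩ := hq
      constructor
      · intro h
        rw [div_eq_zero_iff] at h
        rcases h with h | h
        · apply hy
          rw [h] at hb
          have : p ^ 2 * y = 0 := by linear_combination -hb
          exact (mul_eq_zero.mp this).resolve_left (pow_ne_zero 2 hp0)
        · exact (pow_ne_zero 2 hp0) h
      · intro h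
        apply hy
        have hb1 : b = 1 := by field_simp at h; exact h
        rw [hb1] at hb
        have : p ^ 2 * y = 0 := by linear_combination -hb + two
        exact (mul_eq_zero.mp this).resolve_left (pow_ne_zero 2 hp0)
    · intro s hs
      simp only [tri, mem_filter, mem_univ, true_and, hp2, hr2, ← hp, ← hr] at hs ⊢
      obtain ⟨h0, h1⟩ := hs
      refine ⟨⟨?_, ?_, ?_⟩, trivial⟩
      · apply mul_ne_zero h0
        have : p ^ 2 * s ≠ 1 := by intro h; apply h1; linear_combination h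
        rw [add_comm]
        exact one_add_ne this
      · ring
      · ring
    · rintro ⟨y, b, d⟩ hq
      simp only [tri, mem_filter, mem_univ, true_and, hp2, hr2, ← hp, ← hr] at hq ⊢
      obtain ⟨⟨hy, hb, hd⟩, hbd⟩ := hq
      have k1 : p ^ 2 * (b / p ^ 2) = b := by field_simp
      rw [k1, hbd]
      have k2 : b / p ^ 2 * (b + 1) = y := by
        field_simp
        linear_combination hb
      rw [k2]
    · intro s hs
      simp only
      field_simp
    · rintro ⟨y, b, d⟩ hq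
      simp only [tri, mem_filter, mem_univ, true_and, hp2, hr2, ← hp, ← hr] at hq ⊢
      obtain ⟨⟨hy, hb, hd⟩, hbd⟩ := hq
      congr 1
      unfold tph ph
      simp only [← hp, ← hr, hbd]
      have k1 : p * p * (b / p ^ 2) = b := by field_simp
      rw [k1, ← he2]
      have k2 : b / p ^ 2 * (b + 1) = y := by
        field_simp
        linear_combination hb
      rw [k2]
      have k3 : p ^ 2 * e * (b / p ^ 2) = e * b := by field_simp
      rw [k3, he]
      linear_combination (b * y⁻¹ -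
        p * (X * V + Z * W) * (X * W + Z * V) * (b / p ^ 2) ^ 2) * two
  have f2 : ∑ q ∈ (tri (X ^ 2) (Z ^ 2) (V ^ 2) (W ^ 2)).filter (fun q => ¬ q.2.2 = q.2.1),
      c (tph (X ^ 2) (Z ^ 2) (V ^ 2) (W ^ 2) q) =
      ∑ b ∈ (univ : Finset F).filter (fun b => b ≠ 0 ∧ b ≠ 1),
        c (e * b + ((V ^ 2)⁻¹ + (W ^ 2)⁻¹)) := by
    refine Finset.sum_bij' (fun q _ => q.2.1)
      (fun b _ => ((b ^ 2 + b) / p ^ 2, b, b + 1)) ?_ ?_ ?_ ?_ ?_
    · rintro ⟨y, b, d⟩ hq
      simp only [tri, mem_filter, mem_univ, true_and, hp2, hr2] at hq ⊢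
      obtain ⟨⟨hy, hb, hd⟩, hbd⟩ := hq
      constructor
      · intro h
        apply hy
        rw [h] at hb
        have : p ^ 2 * y = 0 := by linear_combination -hb
        exact (mul_eq_zero.mp this).resolve_left (pow_ne_zero 2 hp0)
      · intro h
        apply hy
        rw [h] at hb
        have : p ^ 2 * y = 0 := by linear_combination -hb + two
        exact (mul_eq_zero.mp this).resolve_left (pow_ne_zero 2 hp0)
    · intro b hb
      simp only [tri, mem_filter, mem_univ, true_and, hp2, hr2] at hb ⊢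
      obtain ⟨h0, h1⟩ := hb
      refine ⟨⟨?_, ?_, ?_⟩, ?_⟩
      · apply div_ne_zero _ (pow_ne_zero 2 hp0)
        have : b ^ 2 + b = b * (1 + b) := by ring
        rw [this]
        exact mul_ne_zero h0 (one_add_ne h1)
      · field_simp
      · rw [shift_sq b _ rfl]; field_simp
      · intro h
        have : (1 : F) = 0 := by linear_combination h
        exact one_ne_zero this
    · rintro ⟨y, b, d⟩ hq
      simp only [tri, mem_filter, mem_univ, true_and, hp2, hr2] at hq ⊢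
      obtain ⟨⟨hy, hb, hd⟩, hbd⟩ := hq
      have k1 : (b ^ 2 + b) / p ^ 2 = y := by field_simp; linear_combination hb
      have k2 : b + 1 = d := by
        have : (d - b) * (d - (b + 1)) = 0 := by
          linear_combination hd - hb + (b ^ 2 + b - d * b - d) * two
        rcases mul_eq_zero.mp this with h | h
        · exact absurd (sub_eq_zero.mp h) hbd
        · exact (sub_eq_zero.mp h).symm
      rw [k1, k2]
    · intro b hb
      rfl
    · rintro ⟨y, b, d⟩ hq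
      simp only [tri, mem_filter, mem_univ, true_and, hp2, hr2] at hq ⊢
      obtain ⟨⟨hy, hb, hd⟩, hbd⟩ := hq
      have k2 : d = b + 1 := by
        have : (d - b) * (d - (b + 1)) = 0 := by
          linear_combination hd - hb + (b ^ 2 + b - d * b - d) * two
        rcases mul_eq_zero.mp this with h | h
        · exact absurd (sub_eq_zero.mp h) hbd
        · exact (sub_eq_zero.mp h)
      congr 1
      unfold tph
      simp only [k2, he]
      linear_combination ((b + 1) * y⁻¹) * two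
  have f3 : ∑ b ∈ (univ : Finset F).filter (fun b => b ≠ 0 ∧ b ≠ 1),
        c (e * b + ((V ^ 2)⁻¹ + (W ^ 2)⁻¹)) +
      (c ((V ^ 2)⁻¹ + (W ^ 2)⁻¹) + c ((X ^ 2)⁻¹ + (Z ^ 2)⁻¹)) =
      (∑ b : F, c (e * b)) * c ((V ^ 2)⁻¹ + (W ^ 2)⁻¹) := by
    rw [sum_mul]
    have g1 : (univ : Finset F).filter (fun b => b ≠ 0 ∧ b ≠ 1) = (univ.erase 0).erase 1 := by
      ext b
      simp only [mem_filter, mem_univ, true_and, mem_erase, and_true]
      tauto
    have g2 : (1 : F) ∈ (univ : Finset F).erase 0 := mem_erase.mpr ⟨one_ne_zero, mem_univ _⟩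
    rw [g1, ← Finset.sum_erase_add _ _ (mem_univ (0 : F)), ← Finset.sum_erase_add _ _ g2]
    have g3 : c (e * 1) * c ((V ^ 2)⁻¹ + (W ^ 2)⁻¹) = c ((X ^ 2)⁻¹ + (Z ^ 2)⁻¹) := by
      rw [← hc.add]
      congr 1
      rw [he]
      linear_combination ((V ^ 2)⁻¹ + (W ^ 2)⁻¹) * two
    rw [g3, mul_zero, hc.zero, one_mul]
    simp only [hc.add]
    ring
  rw [f1, f2, add_assoc, f3, hc.sum_ite]
  congr 1
  by_cases h : e = 0
  · rw [if_pos h, if_pos (he0.mp h)]
  · rw [if_neg h, if_neg (fun h2 => h (he0.mpr h2)), zero_mul]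

end Pool.Agent.Q280.JHK
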