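import Pool.Agent.Q280.JHK.Core2

open Finset

set_option linter.unusedSectionVars false

namespace Pool.Agent.Q280.JHK

variable {F : Type*} [Field F] [Fintype F] [DecidableEq F] [CharP F 2]
variable {R : Type*} [CommRing R]

theorem pair_iff (X Z V W : F) : (X * Z = V * W ∧ X + Z = V + W) ↔
    ((X = V ∧ Z = W) ∨ (X = W ∧ Z = V)) := by
  constructor
  · rintro ⟨h1, h2⟩
    have h3 : (X - V) * (X - W) = 0 := by linear_combination X * h2 - h1
    rcases mul_eq_zero.mp h3 with h | h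
    · left
      have hx : X = V := sub_eq_zero.mp h
      refine ⟨hx, ?_⟩
      rw [hx] at h2
      exact add_left_cancel h2
    · right
      have hx : X = W := sub_eq_zero.mp h
      refine ⟨hx, ?_⟩
      rw [hx, add_comm V W] at h2
      exact add_left_cancel h2
  · rintro (⟨h1, h2⟩ | ⟨h1, h2⟩)
    · rw [h1, h2]; exact ⟨rfl, rfl⟩
    · rw [h1, h2]; exact ⟨mul_comm _ _, add_comm _ _⟩

/-- delta terms -/
def Dl (c : F → R) (X Z V W : F) : R :=
  (if X * Z = V * W ∧ X + Z = V + W then (Fintype.card F : R) * c ((V ^ 2)⁻¹ + (W ^ 2)⁻¹) else 0) +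
  (if X = Z ∧ V = W then (Fintype.card F : R) * c ((X ^ 2)⁻¹ + (W ^ 2)⁻¹) else 0)

theorem Dl_swap (c : F → R) (X Z V W : F) : Dl c X Z V W = Dl c X W V Z := by
  unfold Dl
  rw [if_congr (pair_iff X Z V W) rfl rfl, if_congr (pair_iff X W V Z) rfl rfl]
  by_cases h1 : X = V <;> by_cases h2 : Z = W
  · subst h1; subst h2
    by_cases h3 : X = Z
    · subst h3; simp
    · simp [h3]
  · subst h1
    by_cases h3 : X = W
    · subst h3
      simp [h2, Ne.symm h2]
    · by_cases h4 : X = Z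
      · subst h4; simp [h3, Ne.symm h3]
      · simp [h3, h4, h2, Ne.symm h2, Ne.symm h3]
  · subst h2
    by_cases h3 : X = Z
    · subst h3
      simp [h1]
    · simp [h1, h3]
  · by_cases h3 : X = W <;> by_cases h4 : X = Z <;> by_cases h5 : V = Z <;> by_cases h6 : V = W <;>
      simp_all
    all_goals first
      | (rw [add_comm]; done)
      | (intro h; exact absurd h.symm (by assumption))

/-- the full middle sum -/
def Cc (c : F → R) (x z v w : F) : R :=
  (∑ y, if y = 0 then 0 else c y⁻¹ * S c x y z * S c y v w) +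
    c (x * z + v * w) * (c (v⁻¹ + w⁻¹) + c (x⁻¹ + z⁻¹)) +
    (if x = z ∧ v = w then (Fintype.card F : R) * c (x⁻¹ + w⁻¹) else 0)

theorem Cc_eq {c : F → R} (hc : IsChar c) {X Z V W : F} (hX : X ≠ 0) (hZ : Z ≠ 0) (hV : V ≠ 0)
    (hW : W ≠ 0) :
    Cc c (X ^ 2) (Z ^ 2) (V ^ 2) (W ^ 2) = Th c X Z V W + Dl c X Z V W := by
  have hsq : ∀ a b : F, a ^ 2 = b ^ 2 ↔ a = b := by
    intro a b
    constructor
    · intro h
      have two : (2 : F) = 0 := CharTwo.two_eq_zero
      have h1 : (a - b) ^ 2 = 0 := by linear_combination h + (b ^ 2 - a * b) * two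
      exact sub_eq_zero.mp (pow_eq_zero_iff (two_ne_zero) |>.mp h1)
    · intro h; rw [h]
  unfold Cc Dl
  rw [mid_eq_tri hc, if_congr (and_congr (hsq X Z) (hsq V W)) rfl rfl, ← add_assoc]
  congr 1
  by_cases h : X * Z = V * W
  · have h0 : X ^ 2 * Z ^ 2 + V ^ 2 * W ^ 2 = 0 := by
      rw [← mul_pow, ← mul_pow, h]
      exact CharTwo.add_self_eq_zero _
    rw [h0, hc.zero, one_mul, Th_eq c hc hX hZ hV hW h]
    simp [h]
  · rw [tri_eq hX hZ hV hW h, Th_ne c hX hZ hV hW h]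
    simp only [h, false_and, if_false, add_zero]
    rw [mul_add, ← hc.add, ← hc.add]

theorem Cc_swap {c : F → R} (hc : IsChar c) {x z v w : F} (hx : x ≠ 0) (hz : z ≠ 0) (hv : v ≠ 0)
    (hw : w ≠ 0) : Cc c x z v w = Cc c x w v z := by
  have hs : ∀ a : F, ∃ b, a = b ^ 2 := by
    intro a
    obtain ⟨b, hb⟩ := FiniteField.isSquare_of_char_two (ringChar.eq F 2) a
    exact ⟨b, by rw [hb, sq]⟩
  obtain ⟨X, rfl⟩ := hs x
  obtain ⟨Z, rfl⟩ := hs z
  obtain ⟨V, rfl⟩ := hs v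
  obtain ⟨W, rfl⟩ := hs w
  have hX : X ≠ 0 := by rintro rfl; simp at hx
  have hZ : Z ≠ 0 := by rintro rfl; simp at hz
  have hV : V ≠ 0 := by rintro rfl; simp at hv
  have hW : W ≠ 0 := by rintro rfl; simp at hw
  rw [Cc_eq hc hX hZ hV hW, Cc_eq hc hX hW hV hZ, Th_swap, Dl_swap]

end Pool.Agent.Q280.JHK
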