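import Mathlib

/-!
An abstract trace lemma: a commuting family of symmetric operators with one dimensional joint
eigenspaces, normalised by a linear functional, and an operator of finite order permuting
the family.
-/

open Module DirectSum

namespace Pool.Agent.Q280.JHK

theorem trace_zero_fin {ι V : Type*} [DecidableEq ι] [Fintype ι] [AddCommGroup V] [Module ℂ V]
    [FiniteDimensional ℂ V] {N : ι → Submodule ℂ V} (h : DirectSum.IsInternal N)
    (g : V →ₗ[ℂ] V)
    (hg : ∀ i, ∀ v ∈ N i, g v ∈ ⨆ j : {j // j ≠ i}, N j.1) :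
    LinearMap.trace ℂ V g = 0 := by
  let b : (i : ι) → Basis _ ℂ (N i) := fun i ↦ Module.Free.chooseBasis ℂ (N i)
  rw [LinearMap.trace_eq_matrix_trace ℂ (h.collectedBasis b), Matrix.trace]
  apply Finset.sum_eq_zero
  rintro ⟨i, k⟩ _
  rw [Matrix.diag_apply, LinearMap.toMatrix_apply]
  have h1 : g (h.collectedBasis b ⟨i, k⟩) ∈ ⨆ j : {j // j ≠ i}, N j.1 := by
    rw [IsInternal.collectedBasis_coe]; exact hg i _ (Subtype.mem _)
  have h2 : ∀ w ∈ ⨆ j : {j // j ≠ i}, N j.1, (h.collectedBasis b).repr w ⟨i, k⟩ = 0 := by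
    intro w hw
    induction hw using Submodule.iSup_induction' with
    | mem j x hx =>
      exact h.collectedBasis_repr_of_mem_ne b j.2 hx
    | zero => simp
    | add x y _ _ hx hy => simp [hx, hy]
  exact h2 _ h1

theorem trace_zero {ι V : Type*} [DecidableEq ι] [AddCommGroup V] [Module ℂ V]
    [FiniteDimensional ℂ V] {N : ι → Submodule ℂ V} (h : DirectSum.IsInternal N)
    (g : V →ₗ[ℂ] V)
    (hg : ∀ i, ∀ v ∈ N i, g v ∈ ⨆ j : {j // j ≠ i}, N j.1) :
    LinearMap.trace ℂ V g = 0 := by
  have hN : {i | N i ≠ ⊥}.Finite := WellFoundedGT.finite_ne_bot_of_iSupIndep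
    h.submodule_iSupIndep
  let _ : Fintype {i // N i ≠ ⊥} := hN.fintype
  apply trace_zero_fin (isInternal_ne_bot_iff.mpr h) g
  intro i v hv
  have h1 := hg i.1 v hv
  refine (iSup_le ?_ : (⨆ j : {j // j ≠ i.1}, N j.1) ≤ _) h1
  intro j
  by_cases hj : N j.1 = ⊥
  · rw [hj]; exact bot_le
  · have hji : (⟨j.1, hj⟩ : {i // N i ≠ ⊥}) ≠ i := by
      intro h2; exact j.2 (congrArg Subtype.val h2)
    exact le_iSup (fun t : {t : {i // N i ≠ ⊥} // t ≠ i} => N t.1.1) ⟨⟨j.1, hj⟩, hji⟩

theorem pow_trace_eq {J V : Type*} [NormedAddCommGroup V] [InnerProductSpace ℂ V]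
    [FiniteDimensional ℂ V] (H : J → V →ₗ[ℂ] V) (hsym : ∀ j, (H j).IsSymmetric)
    (hcomm : ∀ i j, Commute (H i) (H j)) (T : V →ₗ[ℂ] V) (hT : ∀ j, Commute (H j) T)
    (l : V →ₗ[ℂ] ℂ)
    (hl : ∀ (a : J → ℂ) (v : V), (∀ j, H j v = a j • v) → l v = 0 → v = 0)
    (P : V →ₗ[ℂ] V) (p : Equiv.Perm J) (hP : ∀ j v, P (H j v) = H (p j) (P v))
    (hlP : ∀ v, l (P v) = l v) (n : ℕ) (hn : P ^ n = 1) (k : ℕ)
    (hk : Nat.Coprime k n) :
    LinearMap.trace ℂ V (P ^ k * T) = LinearMap.trace ℂ V (P * T) := by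
  classical
  have hint := LinearMap.IsSymmetric.directSum_isInternal_of_pairwise_commute (T := H) hsym
    (fun i j _ => hcomm i j)
  have hmem : ∀ (a : J → ℂ) (v : V), v ∈ (⨅ j, End.eigenspace (H j) (a j)) ↔
      ∀ j, H j v = a j • v := by
    intro a v
    simp [Submodule.mem_iInf]
  -- the action on labels
  let sg : (J → ℂ) → (J → ℂ) := fun a j => a (p.symm j)
  have hsg : ∀ (a : J → ℂ) (v : V), (∀ j, H j v = a j • v) → ∀ j, H j (P v) = (sg a) j • P v := by
    intro a v hv j
    have h1 := hP (p.symm j) v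
    rw [Equiv.apply_symm_apply, hv, map_smul] at h1
    exact h1.symm
  have hsgk : ∀ (m : ℕ) (a : J → ℂ) (v : V), (∀ j, H j v = a j • v) →
      ∀ j, H j ((P ^ m) v) = (sg^[m] a) j • (P ^ m) v := by
    intro m
    induction m with
    | zero => intro a v hv j; simpa using hv j
    | succ m ih =>
      intro a v hv j
      rw [pow_succ', Module.End.mul_apply, Function.iterate_succ_apply']
      exact hsg _ _ (ih a v hv) j
  have hTm : ∀ (a : J → ℂ) (v : V), (∀ j, H j v = a j • v) → ∀ j, H j (T v) = a j • T v := by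
    intro a v hv j
    have h1 : (H j * T) v = (T * H j) v := by rw [(hT j).eq]
    rw [Module.End.mul_apply, Module.End.mul_apply, hv j, map_smul] at h1
    exact h1
  have huniq : ∀ (a c : J → ℂ) (v : V), v ≠ 0 → (∀ j, H j v = a j • v) →
      (∀ j, H j v = c j • v) → a = c := by
    intro a c v hv h1 h2
    funext j
    have h3 := (h1 j).symm.trans (h2 j)
    exact smul_left_injective ℂ hv h3
  have key : LinearMap.trace ℂ V ((P ^ k - P) * T) = 0 := by
    apply trace_zero hint
    intro a v hv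
    rw [hmem] at hv
    by_cases hv0 : T v = 0
    · rw [Module.End.mul_apply, hv0, map_zero]; exact Submodule.zero_mem _
    have hw := hTm a v hv
    have hper : Function.IsPeriodicPt sg n a := by
      have h1 := hsgk n a (T v) hw
      rw [hn] at h1
      exact (huniq _ _ _ hv0 hw h1).symm
    by_cases hfix : sg a = a
    · -- P fixes T v
      have h1 : P (T v) - T v = 0 := by
        apply hl a
        · intro j
          have h2 := hsg a (T v) hw j
          rw [hfix] at h2
          rw [map_sub, h2, hw j, smul_sub]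
        · rw [map_sub, hlP, sub_self]
      have h2 : P (T v) = T v := sub_eq_zero.mp h1
      have h3 : ∀ m : ℕ, (P ^ m) (T v) = T v := by
        intro m
        induction m with
        | zero => simp
        | succ m ih => rw [pow_succ', Module.End.mul_apply, ih, h2]
      rw [Module.End.mul_apply, LinearMap.sub_apply, h3, h2, sub_self]
      exact Submodule.zero_mem _
    · have hfixk : sg^[k] a ≠ a := by
        intro h1
        have h2 : Function.IsPeriodicPt sg k a := h1
        have h3 := h2.gcd hper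
        rw [hk] at h3
        exact hfix h3
      rw [Module.End.mul_apply, LinearMap.sub_apply]
      apply Submodule.sub_mem
      · have h1 : (P ^ k) (T v) ∈ ⨅ j, End.eigenspace (H j) ((sg^[k] a) j) :=
          (hmem _ _).mpr (hsgk k a (T v) hw)
        exact Submodule.mem_iSup_of_mem (⟨sg^[k] a, hfixk⟩ : {j // j ≠ a}) h1
      · have h1 : P (T v) ∈ ⨅ j, End.eigenspace (H j) ((sg a) j) :=
          (hmem _ _).mpr (hsg a (T v) hw)
        exact Submodule.mem_iSup_of_mem (⟨sg a, hfix⟩ : {j // j ≠ a}) h1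
  rw [sub_mul, map_sub] at key
  exact sub_eq_zero.mp key

end Pool.Agent.Q280.JHK
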