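import Pool.Agent.Q280.JHK.Comm
import Pool.Agent.Q280.JHK.Spec

open Finset Module

set_option linter.unusedSectionVars false
set_option linter.unusedSimpArgs false

namespace Pool.Agent.Q280.JHK

variable {F : Type*} [Field F] [Fintype F] [DecidableEq F] [CharP F 2]

/-- permutation matrices -/
def pm (σ : Equiv.Perm (Ix F)) : Matrix (Ix F) (Ix F) ℂ := fun a b => if a = σ b then 1 else 0

theorem pm_mul (σ : Equiv.Perm (Ix F)) (M : Matrix (Ix F) (Ix F) ℂ) (a b : Ix F) :
    (pm σ * M) a b = M (σ.symm a) b := by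
  rw [Matrix.mul_apply, Finset.sum_eq_single (σ.symm a)]
  · simp [pm]
  · intro j _ hj
    have : a ≠ σ j := by
      intro h; apply hj; rw [h]; simp
    simp [pm, this]
  · simp

theorem mul_pm (σ : Equiv.Perm (Ix F)) (M : Matrix (Ix F) (Ix F) ℂ) (a b : Ix F) :
    (M * pm σ) a b = M a (σ b) := by
  rw [Matrix.mul_apply, Finset.sum_eq_single (σ b)]
  · simp [pm]
  · intro j _ hj
    simp [pm, hj]
  · simp

theorem pm_pow (σ : Equiv.Perm (Ix F)) (m : ℕ) : (pm σ) ^ m = pm (σ ^ m) := by
  induction m with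
  | zero =>
    ext a b
    simp [pm, Matrix.one_apply]
  | succ m ih =>
    rw [pow_succ, ih]
    ext a b
    rw [mul_pm]
    simp [pm, pow_succ]

/-- squaring as a permutation of the field -/
noncomputable def fr : Equiv.Perm F := (frobeniusEquiv F 2).toEquiv

theorem fr_apply (x : F) : fr x = x ^ 2 := by
  simp [fr, frobenius_def]

/-- squaring as a permutation of the index set -/
noncomputable def pi2 : Equiv.Perm (Ix F) := Equiv.optionCongr (Equiv.optionCongr fr)

theorem pi2_none : (pi2 : Equiv.Perm (Ix F)) none = none := rfl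
theorem pi2_some_none : (pi2 : Equiv.Perm (Ix F)) (some none) = some none := rfl
theorem pi2_some (x : F) : (pi2 : Equiv.Perm (Ix F)) (some (some x)) = some (some (x ^ 2)) := by
  rw [← fr_apply]
  rfl

theorem pi2_pow_none (m : ℕ) : ((pi2 : Equiv.Perm (Ix F)) ^ m) none = none := by
  induction m with
  | zero => rfl
  | succ m ih => rw [pow_succ', Equiv.Perm.mul_apply, ih, pi2_none]

theorem pi2_pow_some_none (m : ℕ) : ((pi2 : Equiv.Perm (Ix F)) ^ m) (some none) = some none := by
  induction m with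
  | zero => rfl
  | succ m ih => rw [pow_succ', Equiv.Perm.mul_apply, ih, pi2_some_none]

theorem pi2_pow_some (m : ℕ) (x : F) :
    ((pi2 : Equiv.Perm (Ix F)) ^ m) (some (some x)) = some (some (x ^ (2 ^ m))) := by
  induction m with
  | zero => simp
  | succ m ih => rw [pow_succ', Equiv.Perm.mul_apply, ih, pi2_some, ← pow_mul, ← pow_succ]

variable {c : F → ℂ}

theorem c_inv_sq (hc : IsChar c) (x : F) : c (x ^ 2)⁻¹ = c x⁻¹ := by
  rw [← inv_pow, hc.frob]

theorem sq_inj_iff (a b : F) : a ^ 2 = b ^ 2 ↔ a = b := by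
  rw [← fr_apply, ← fr_apply]
  exact fr.injective.eq_iff

theorem S_sq (hc : IsChar c) (x y z : F) : S c (x ^ 2) (y ^ 2) (z ^ 2) = S c x y z := by
  unfold S
  rw [← Equiv.sum_comp fr]
  apply sum_congr rfl
  intro b _
  rw [fr_apply]
  have h1 : (b ^ 2) ^ 2 + b ^ 2 = (b ^ 2 + b) ^ 2 := by
    have two : (2 : F) = 0 := CharTwo.two_eq_zero
    linear_combination (-(b ^ 3)) * two
  have h2 : x ^ 2 * y ^ 2 * z ^ 2 = (x * y * z) ^ 2 := by ring
  rw [h1, h2]
  simp only [sq_inj_iff]
  split_ifs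
  · rw [← hc.frob (b * (x⁻¹ + y⁻¹ + z⁻¹))]
    congr 1
    rw [mul_pow, CharTwo.add_sq, CharTwo.add_sq, inv_pow, inv_pow, inv_pow]
  · rfl

theorem c_frob2 (hc : IsChar c) (a b : F) : c (a ^ 2 + b ^ 2) = c (a + b) := by
  rw [← CharTwo.add_sq, hc.frob]

theorem kk_sq (hc : IsChar c) (x y z : F) : kk c (z ^ 2) (x ^ 2) (y ^ 2) = kk c z x y := by
  unfold kk
  have h0 : ∀ a : F, a ^ 2 = 0 ↔ a = 0 := fun a => pow_eq_zero_iff two_ne_zero
  simp only [h0]
  rw [S_sq hc, c_inv_sq hc]
  have h1 : c ((z ^ 2)⁻¹ + (y ^ 2)⁻¹ + y ^ 2 * z ^ 2) = c (z⁻¹ + y⁻¹ + y * z) := by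
    rw [← hc.frob (z⁻¹ + y⁻¹ + y * z)]
    congr 1
    rw [CharTwo.add_sq, CharTwo.add_sq, inv_pow, inv_pow, mul_pow]
  have h2 : c ((x ^ 2)⁻¹ + x ^ 2 * z ^ 2) = c (x⁻¹ + x * z) := by
    rw [← hc.frob (x⁻¹ + x * z)]
    congr 1
    rw [CharTwo.add_sq, inv_pow, mul_pow]
  rw [h1, h2]

theorem K_sq (hc : IsChar c) (s : ℂ) (z : F) (a b : Ix F) :
    K c s (z ^ 2) (pi2 a) (pi2 b) = K c s z a b := by
  rcases a with _ | _ | x <;> rcases b with _ | _ | y <;>
    simp only [pi2_none, pi2_some_none, pi2_some, K]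
  · simp only [sq_inj_iff, c_inv_sq hc]
  · rw [← hc.frob (y * z), mul_pow]
  · simp only [sq_inj_iff]
  · rw [← hc.frob (z⁻¹ + x * z), CharTwo.add_sq, mul_pow, inv_pow]
  · exact kk_sq hc x y z

/-- the phase making `K z` Hermitian -/
noncomputable def ga (c : F → ℂ) (z : F) : ℂ := if c z⁻¹ = 1 then 1 else Complex.I

theorem ga_ne (c : F → ℂ) (z : F) : ga c z ≠ 0 := by
  unfold ga
  split_ifs
  · exact one_ne_zero
  · exact Complex.I_ne_zero

theorem c_pm (hc : IsChar c) (x : F) : c x = 1 ∨ c x = -1 := by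
  have h := hc.sq x
  have h1 : (c x - 1) * (c x + 1) = 0 := by linear_combination h
  rcases mul_eq_zero.mp h1 with h2 | h2
  · left; linear_combination h2
  · right; linear_combination h2

theorem c_star (hc : IsChar c) (x : F) : star (c x) = c x := by
  rcases c_pm hc x with h | h <;> rw [h] <;> simp

theorem S_star (hc : IsChar c) (x y z : F) : star (S c x y z) = S c x y z := by
  unfold S
  rw [star_sum]
  apply sum_congr rfl
  intro b _
  split_ifs
  · exact c_star hc _
  · simp

theorem kk_star (hc : IsChar c) (z x y : F) : star (kk c z x y) = kk c z x y := by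
  unfold kk
  split_ifs
  · simp
  · exact c_star hc _
  · exact c_star hc _
  · rw [star_mul', c_star hc, S_star hc]

theorem K_star (hc : IsChar c) {s : ℂ} (hs : star s = s) (z : F) (a b : Ix F) :
    star (K c s z a b) = K c s z a b := by
  rcases a with _ | _ | x <;> rcases b with _ | _ | y <;> simp only [K]
  · simp
  · simp
  · split_ifs
    · rw [star_mul', hs, c_star hc]
    · simp
  · simp
  · simp
  · exact c_star hc _
  · split_ifs
    · exact hs
    · simp
  · exact c_star hc _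
  · exact kk_star hc _ _ _

theorem gaK_herm (hc : IsChar c) {s : ℂ} (hs : star s = s) (z : F) :
    (ga c z • K c s z).IsHermitian := by
  ext a b
  rw [Matrix.conjTranspose_apply, Matrix.smul_apply, Matrix.smul_apply, smul_eq_mul, smul_eq_mul,
    star_mul', K_star hc hs, K_tr hc s z a b]
  unfold ga
  rcases c_pm hc z⁻¹ with h | h
  · simp [h]
  · have h1 : (-1 : ℂ) ≠ 1 := by norm_num
    rw [h]
    simp [h1]

theorem exists_diff (hc : IsChar c) (hq : 2 < Fintype.card F) :
    ∃ x z : F, x ≠ 0 ∧ z ≠ 0 ∧ c x⁻¹ ≠ c z⁻¹ := by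
  by_contra hcon
  push Not at hcon
  have h1 : ∀ y : F, y ≠ 0 → c y = c 1 := by
    intro y hy
    have := hcon y⁻¹ 1 (inv_ne_zero hy) one_ne_zero
    simpa using this
  have h2 : ∑ y : F, c (1 * y) = 0 := hc.sum 1 one_ne_zero
  rw [← Finset.sum_erase_add _ _ (mem_univ (0 : F))] at h2
  have h3 : ∑ y ∈ (univ : Finset F).erase 0, c (1 * y) =
      ((Fintype.card F - 1 : ℕ) : ℂ) * c 1 := by
    rw [Finset.sum_congr rfl (g := fun _ => c 1), Finset.sum_const, Finset.card_erase_of_mem
      (mem_univ _), Finset.card_univ, nsmul_eq_mul]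
    intro y hy
    rw [one_mul]
    exact h1 y (mem_erase.mp hy).1
  rw [h3, mul_zero, hc.zero] at h2
  rcases c_pm hc 1 with h | h
  · rw [h, mul_one] at h2
    have : ((Fintype.card F - 1 + 1 : ℕ) : ℂ) = 0 := by push_cast; exact h2
    have h4 := Nat.cast_eq_zero.mp this
    omega
  · rw [h] at h2
    have : ((Fintype.card F - 1 : ℕ) : ℂ) = ((1 : ℕ) : ℂ) := by
      push_cast; linear_combination -h2
    have h4 := Nat.cast_injective this
    omega

theorem lin_mul (A B : Matrix (Ix F) (Ix F) ℂ) :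
    Matrix.toEuclideanLin (A * B) = Matrix.toEuclideanLin A * Matrix.toEuclideanLin B := by
  ext v
  simp [Matrix.toLpLin_apply, Matrix.mulVec_mulVec]

theorem lin_comm {A B : Matrix (Ix F) (Ix F) ℂ} (h : A * B = B * A) :
    Commute (Matrix.toEuclideanLin A) (Matrix.toEuclideanLin B) := by
  unfold Commute SemiconjBy
  rw [← lin_mul, ← lin_mul, h]

theorem lin_trace (A : Matrix (Ix F) (Ix F) ℂ) :
    LinearMap.trace ℂ (EuclideanSpace ℂ (Ix F)) (Matrix.toEuclideanLin A) = A.trace := by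
  rw [Matrix.toEuclideanLin_eq_toLin_orthonormal]
  exact Matrix.trace_toLin_eq A _

theorem lin_pow (A : Matrix (Ix F) (Ix F) ℂ) (m : ℕ) :
    (Matrix.toEuclideanLin A) ^ m = Matrix.toEuclideanLin (A ^ m) := by
  induction m with
  | zero =>
    ext v
    simp [Matrix.toLpLin_apply]
  | succ m ih => rw [pow_succ, ih, pow_succ, lin_mul]

theorem trace_T (c : F → ℂ) (s : ℂ) (m : ℕ) :
    (pm ((pi2 : Equiv.Perm (Ix F)) ^ m) * T c s).trace =
      ∑ y : F, if y = 0 then 0 else c (y⁻¹ + y * y ^ (2 ^ m)) := by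
  unfold Matrix.trace
  simp only [Matrix.diag_apply, pm_mul]
  rw [← Equiv.sum_comp ((pi2 : Equiv.Perm (Ix F)) ^ m)]
  simp only [Equiv.symm_apply_apply]
  rw [Fintype.sum_option, Fintype.sum_option]
  rw [pi2_pow_none, pi2_pow_some_none]
  simp only [pi2_pow_some, T, zero_add]

theorem pm_mulVec (σ : Equiv.Perm (Ix F)) (v : Ix F → ℂ) (a : Ix F) :
    (pm σ).mulVec v a = v (σ.symm a) := by
  rw [Matrix.mulVec, dotProduct, Finset.sum_eq_single (σ.symm a)]
  · simp [pm]
  · intro j _ hj
    have : a ≠ σ j := by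
      intro h; apply hj; rw [h]; simp
    simp [pm, this]
  · simp

theorem ga_sq (hc : IsChar c) (z : F) : ga c (z ^ 2) = ga c z := by
  unfold ga
  rw [c_inv_sq hc]

theorem pm_K (hc : IsChar c) (s : ℂ) (z : F) :
    pm pi2 * (ga c z • K c s z) = (ga c (z ^ 2) • K c s (z ^ 2)) * pm pi2 := by
  ext a b
  rw [pm_mul, mul_pm, ga_sq hc, Matrix.smul_apply, Matrix.smul_apply]
  obtain ⟨a', rfl⟩ := (pi2 : Equiv.Perm (Ix F)).surjective a
  rw [Equiv.symm_apply_apply, K_sq hc]

theorem vec_zero (hc : IsChar c) (hq : 2 < Fintype.card F) {s : ℂ} (hs0 : s ≠ 0)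
    (v : Ix F → ℂ) (a : {z : F // z ≠ 0} → ℂ)
    (hv : ∀ (z : {z : F // z ≠ 0}) (i : Ix F), ga c z.1 * (K c s z.1).mulVec v i = a z * v i)
    (h0 : v none = 0) : v = 0 := by
  have hexp : ∀ (z : F) (i : Ix F), (K c s z).mulVec v i = K c s z i none * v none +
      (K c s z i (some none) * v (some none) +
        ∑ y, K c s z i (some (some y)) * v (some (some y))) := by
    intro z i
    rw [Matrix.mulVec, dotProduct, Fintype.sum_option, Fintype.sum_option]
  have h1 : ∀ z : F, z ≠ 0 → v (some (some z)) = 0 := by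
    intro z hz
    have h2 := hv ⟨z, hz⟩ none
    rw [h0, mul_zero, hexp] at h2
    have h3 := (mul_eq_zero.mp h2).resolve_left (ga_ne c z)
    simp only [K, zero_mul, zero_add, ite_mul] at h3
    rw [Finset.sum_ite_eq' univ z] at h3
    simp only [mem_univ, if_true] at h3
    have h4 : s * c z⁻¹ ≠ 0 := by
      apply mul_ne_zero hs0
      rcases c_pm hc z⁻¹ with h | h <;> rw [h] <;> norm_num
    exact (mul_eq_zero.mp h3).resolve_left h4
  have h5 : ∀ x z : F, x ≠ 0 → z ≠ 0 →
      c x⁻¹ * v (some (some 0)) + c z⁻¹ * v (some none) = 0 := by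
    intro x z hx hz
    have h2 := hv ⟨z, hz⟩ (some (some x))
    rw [h1 x hx, mul_zero, hexp] at h2
    have h3 := (mul_eq_zero.mp h2).resolve_left (ga_ne c z)
    rw [h0, mul_zero, zero_add] at h3
    rw [Finset.sum_eq_single (0 : F)] at h3
    · simp only [K, kk, hx, if_false, if_true] at h3
      rw [hc.add, hc.add] at h3
      have h6 : c (x * z) * (c x⁻¹ * v (some (some 0)) + c z⁻¹ * v (some none)) = 0 := by
        linear_combination h3
      have h7 : c (x * z) ≠ 0 := by
        rcases c_pm hc (x * z) with h | h <;> rw [h] <;> norm_num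
      exact (mul_eq_zero.mp h6).resolve_left h7
    · intro y _ hy
      rw [h1 y hy, mul_zero]
    · simp
  obtain ⟨x, z, hx, hz, hxz⟩ := exists_diff hc hq
  have h8 : v (some (some 0)) = 0 := by
    have a1 := h5 x x hx hx
    have a2 := h5 z x hz hx
    have a3 : (c x⁻¹ - c z⁻¹) * v (some (some 0)) = 0 := by linear_combination a1 - a2
    exact (mul_eq_zero.mp a3).resolve_left (sub_ne_zero.mpr hxz)
  have h9 : v (some none) = 0 := by
    have a1 := h5 x x hx hx
    rw [h8, mul_zero, zero_add] at a1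
    have h7 : c x⁻¹ ≠ 0 := by
      rcases c_pm hc x⁻¹ with h | h <;> rw [h] <;> norm_num
    exact (mul_eq_zero.mp a1).resolve_left h7
  funext i
  rcases i with _ | _ | y
  · exact h0
  · exact h9
  · by_cases hy : y = 0
    · rw [hy]; exact h8
    · exact h1 y hy

theorem universal (hc : IsChar c) {n k : ℕ} (hn : Fintype.card F = 2 ^ n)
    (hq : 2 < Fintype.card F) (hk : Nat.Coprime k n) :
    (∑ y : F, if y = 0 then 0 else c (y⁻¹ + y * y ^ (2 ^ k))) =
      ∑ y : F, if y = 0 then 0 else c (y⁻¹ + y * y ^ 2) := by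
  obtain ⟨s, hs⟩ : ∃ s : ℂ, s = ((Real.sqrt (Fintype.card F) : ℝ) : ℂ) := ⟨_, rfl⟩
  have hs2 : s * s = (Fintype.card F : ℂ) := by
    rw [hs, ← Complex.ofReal_mul, Real.mul_self_sqrt (Nat.cast_nonneg _)]
    simp
  have hstar : star s = s := by
    rw [hs]
    exact Complex.conj_ofReal _
  have hs0 : s ≠ 0 := by
    intro h
    rw [h, mul_zero] at hs2
    have : Fintype.card F = 0 := by exact_mod_cast hs2.symm
    omega
  have key := pow_trace_eq (J := {z : F // z ≠ 0}) (V := EuclideanSpace ℂ (Ix F))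
    (fun z => Matrix.toEuclideanLin (ga c z.1 • K c s z.1)) ?_ ?_ (Matrix.toEuclideanLin (T c s)) ?_
    ((EuclideanSpace.proj (none : Ix F) : EuclideanSpace ℂ (Ix F) →L[ℂ] ℂ).toLinearMap) ?_
    (Matrix.toEuclideanLin (pm pi2)) (fr.subtypePerm (fun x => by rw [fr_apply]; simp)) ?_ ?_
    n ?_ k hk
  · rw [lin_pow, pm_pow, ← lin_mul, ← lin_mul, lin_trace, lin_trace, trace_T] at key
    rw [key]
    have h1 := trace_T c s 1
    rw [pow_one] at h1
    rw [h1]
    simp
  · -- symmetric
    intro z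
    rw [Matrix.isSymmetric_toEuclideanLin_iff]
    exact gaK_herm hc hstar z.1
  · -- commuting
    intro z w
    apply lin_comm
    rw [Matrix.smul_mul, Matrix.mul_smul, Matrix.smul_mul, Matrix.mul_smul,
      K_comm hc hs2 z.2 w.2, smul_comm]
  · -- commuting with T
    intro z
    apply lin_comm
    rw [Matrix.smul_mul, Matrix.mul_smul, T_comm hc hs2 z.2]
  · -- normalisation
    intro a v hv h0
    have h1 : (fun i => v i) = 0 := by
      apply vec_zero hc hq hs0 (fun i => v i) a
      · intro z i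
        have h2 := congrArg (fun w : EuclideanSpace ℂ (Ix F) => w i) (hv z)
        simpa [Matrix.toLpLin_apply, Matrix.smul_mulVec] using h2
      · exact h0
    ext i
    exact congrFun h1 i
  · -- equivariance
    intro z v
    rw [← Module.End.mul_apply, ← Module.End.mul_apply, ← lin_mul, ← lin_mul, pm_K hc]
    have h1 : ((fr.subtypePerm (fun x => by rw [fr_apply]; simp) :
        Equiv.Perm {z : F // z ≠ 0}) z).1 = z.1 ^ 2 := by
      rw [Equiv.Perm.subtypePerm_apply]
      exact fr_apply z.1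
    rw [h1]
  · -- functional
    intro v
    show (Matrix.toEuclideanLin (pm pi2) v) none = v none
    rw [Matrix.toLpLin_apply]
    show (pm pi2).mulVec _ none = v none
    rw [pm_mulVec]
    have h1 : (pi2 : Equiv.Perm (Ix F)).symm none = none := by
      rw [Equiv.symm_apply_eq, pi2_none]
    rw [h1]
  · -- order
    rw [lin_pow, pm_pow]
    have h1 : (pi2 : Equiv.Perm (Ix F)) ^ n = 1 := by
      ext1 i
      rcases i with _ | _ | y
      · rw [pi2_pow_none]; rfl
      · rw [pi2_pow_some_none]; rfl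
      · rw [pi2_pow_some, ← hn, FiniteField.pow_card]; rfl
    rw [h1]
    have h2 : pm (1 : Equiv.Perm (Ix F)) = 1 := by
      ext a b
      by_cases h : a = b
      · simp [pm, h, Matrix.one_apply]
      · simp [pm, h, Matrix.one_apply]
    rw [h2]
    ext v
    simp [Matrix.toLpLin_apply]

end Pool.Agent.Q280.JHK
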