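import Pool.Agent.Q280.JHK.Core3

/-!
The matrices `K z` and `T` on the index set `F` with two more points, and their commutation.
-/

open Finset

set_option linter.unusedSectionVars false
set_option linter.unusedSimpArgs false

namespace Pool.Agent.Q280.JHK

variable {F : Type*} [Field F] [Fintype F] [DecidableEq F] [CharP F 2]
variable {R : Type*} [CommRing R]

/-- the `F × F` block of the matrix `K z` -/
def kk (c : F → R) (z x y : F) : R :=
  if x = 0 then (if y = 0 then 0 else c (z⁻¹ + y⁻¹ + y * z))
  else if y = 0 then c (x⁻¹ + x * z) else c x⁻¹ * S c x y z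

/-- index set -/
abbrev Ix (F : Type*) := Option (Option F)

/-- the matrices `K z` -/
def K (c : F → R) (s : R) (z : F) : Matrix (Ix F) (Ix F) R := fun a b =>
  match a, b with
  | some (some x), some (some y) => kk c z x y
  | some (some x), some none => c (z⁻¹ + x * z)
  | some (some x), none => if x = z then s else 0
  | some none, some (some y) => c (y * z)
  | some none, some none => 0
  | some none, none => 0
  | none, some (some y) => if y = z then s * c z⁻¹ else 0
  | none, some none => 0
  | none, none => 0

/-- the matrix `T` -/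
def T (c : F → R) (s : R) : Matrix (Ix F) (Ix F) R := fun a b =>
  match a, b with
  | some (some x), some (some y) => if x = 0 then 0 else c (x⁻¹ + x * y)
  | some (some _), some none => 0
  | some (some x), none => if x = 0 then s else 0
  | some none, some (some _) => 1
  | some none, some none => 0
  | some none, none => 0
  | none, some (some _) => 0
  | none, some none => s
  | none, none => 0

theorem mul_entry (A B : Matrix (Ix F) (Ix F) R) (a b : Ix F) :
    (A * B) a b = A a none * B none b + (A a (some none) * B (some none) b +
      ∑ y, A a (some (some y)) * B (some (some y)) b) := by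
  rw [Matrix.mul_apply, Fintype.sum_option, Fintype.sum_option]

theorem kk_tr {c : F → R} (hc : IsChar c) (z x y : F) : kk c z y x = c z⁻¹ * kk c z x y := by
  unfold kk
  by_cases hx : x = 0 <;> by_cases hy : y = 0
  · simp [hx, hy]
  · simp only [hx, hy, if_true, if_false]
    rw [← hc.add]
    have h1 : z⁻¹ + (z⁻¹ + y⁻¹ + y * z) = y⁻¹ + y * z := by
      rw [← add_assoc, ← add_assoc, CharTwo.add_self_eq_zero, zero_add]
    rw [h1]
  · simp only [hx, hy, if_true, if_false]
    rw [← hc.add]
    congr 1
    ring
  · simp only [hx, hy, if_false]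
    rw [S_comm12]
    conv_rhs => rw [← S_twist hc x y z]
    rw [← mul_assoc, ← mul_assoc, ← hc.add, ← hc.add]
    congr 2
    have two : (2 : F) = 0 := CharTwo.two_eq_zero
    linear_combination (-(z⁻¹ + x⁻¹)) * two

theorem K_tr {c : F → R} (hc : IsChar c) (s : R) (z : F) (a b : Ix F) :
    K c s z b a = c z⁻¹ * K c s z a b := by
  rcases a with _ | _ | x <;> rcases b with _ | _ | y <;> simp only [K, mul_zero]
  · split_ifs with h
    · rw [mul_comm s, ← mul_assoc, hc.sq, one_mul]
    · rw [mul_zero]
  · rw [← hc.add]
  · split_ifs with h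
    · rw [mul_comm]
    · rw [mul_zero]
  · rw [← hc.add, ← add_assoc, CharTwo.add_self_eq_zero, zero_add]
  · exact kk_tr hc z x y

theorem OmK {c : F → R} (hc : IsChar c) (z v : F) {w : F} (hw : w ≠ 0) :
    ∑ y, c (z * y) * kk c w y v = Om c z v w := by
  by_cases hv : v = 0
  · subst hv
    unfold kk Om
    apply sum_congr rfl
    intro y _
    by_cases hy : y = 0
    · simp [hy]
    · simp only [hy, if_true, if_false]
      rw [← hc.add]
      congr 1
      ring
  · rw [← sum_S_eq hc hv hw, ← Finset.sum_erase_add _ _ (mem_univ (0 : F)),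
      ← Finset.sum_erase_add (univ : Finset F) (fun y => if y = 0 then 0 else
        c (z * y + y⁻¹) * S c y v w) (mem_univ (0 : F))]
    simp only [if_true, add_zero]
    congr 1
    · apply sum_congr rfl
      intro y hy
      have hy0 : y ≠ 0 := (mem_erase.mp hy).1
      unfold kk
      simp only [hy0, hv, if_false]
      rw [← mul_assoc, ← hc.add]
    · unfold kk
      simp [hv, hc.zero]

theorem OmS {c : F → R} (hc : IsChar c) (z : F) {v w : F} (hv : v ≠ 0) (hw : w ≠ 0) :
    (∑ y, if y = 0 then 0 else c (z * y) * S c y v w) + c (v * w) =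
      c (v⁻¹ + w⁻¹) * Om c z v w := by
  rw [← sum_S_eq hc hv hw, mul_add, mul_sum]
  congr 1
  · apply sum_congr rfl
    intro y _
    by_cases hy : y = 0
    · simp [hy]
    · simp only [hy, if_false]
      conv_lhs => rw [← S_twist hc y v w]
      rw [← mul_assoc, ← mul_assoc, ← hc.add, ← hc.add]
      congr 2
      ring
  · rw [← hc.add]
    congr 1
    have two : (2 : F) = 0 := CharTwo.two_eq_zero
    linear_combination (-(v⁻¹ + w⁻¹)) * two

end Pool.Agent.Q280.JHK
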